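import Pool.Agent.Lib.MP_685082_co.DV.Good

/-! Subset sums as divisors in an interval. -/

namespace Pool.Agent.Lib.MP_685082_co.DV

open Finset

theorem ar_prod {ι : Type} (X : ℕ) (h : ι → ℕ) (J : Finset ι) :
    X ^ J.card * (X + ∑ i ∈ J, h i) ≤ X * ∏ i ∈ J, (X + h i) ∧
    (∑ i ∈ J, h i ≤ X → X ^ 2 * ∏ i ∈ J, (X + h i) ≤
      X ^ J.card * (X ^ 2 + X * ∑ i ∈ J, h i + (∑ i ∈ J, h i) ^ 2)) := by
  classical
  induction J using Finset.induction_on with
  | empty => simp
  | insert i J hi ih =>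
    rw [card_insert_of_notMem hi, sum_insert hi, prod_insert hi, pow_succ X J.card]
    generalize ∑ i ∈ J, h i = s at *
    generalize ∏ i ∈ J, (X + h i) = P at *
    generalize X ^ J.card = Y at *
    generalize h i = b at *
    constructor
    · calc Y * X * (X + (b + s)) ≤ Y * X * (X + (b + s)) + Y * (b * s) := Nat.le_add_right _ _
        _ = (X + b) * (Y * (X + s)) := by ring
        _ ≤ (X + b) * (X * P) := Nat.mul_le_mul_left _ ih.1
        _ = _ := by ring
    · intro hs
      have h1 : b * s * s ≤ b * s * X := Nat.mul_le_mul_left _ (by omega)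
      calc X ^ 2 * ((X + b) * P) = (X + b) * (X ^ 2 * P) := by ring
        _ ≤ (X + b) * (Y * (X ^ 2 + X * s + s ^ 2)) := Nat.mul_le_mul_left _ (ih.2 (by omega))
        _ = Y * ((X + b) * (X ^ 2 + X * s + s ^ 2)) := by ring
        _ ≤ Y * (X * (X ^ 2 + X * (b + s) + (b + s) ^ 2)) := Nat.mul_le_mul_left _ (by
            nlinarith [Nat.zero_le (X * b * b)])
        _ = _ := by ring

theorem ar_up {ι : Type} {X k s : ℕ} {h : ι → ℕ} {J : Finset ι} (hJ : J.card = k + 1)
    (hs : ∑ i ∈ J, h i = s) (h2 : s ^ 2 < X) : ∏ i ∈ J, (X + h i) < X ^ k * (X + s + 1) := by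
  have h1 := (ar_prod X h J).2 (by rw [hs]; nlinarith)
  rw [hs, hJ] at h1
  have hX : 0 < X := by omega
  refine Nat.lt_of_mul_lt_mul_left (a := X ^ 2) (h1.trans_lt ?_)
  calc X ^ (k + 1) * (X ^ 2 + X * s + s ^ 2) < X ^ (k + 1) * (X ^ 2 + X * s + X) :=
        Nat.mul_lt_mul_of_pos_left (by omega) (by positivity)
    _ = _ := by ring

theorem ar_low {ι : Type} {X k B : ℕ} {h : ι → ℕ} {J : Finset ι} (hX : 2 < X) (hB : B < X)
    (h1 : ∏ i ∈ J, (X + h i) < X ^ k * (X + B + 1)) :
    J.card ≤ k + 1 ∧ (J.card = k + 1 → ∑ i ∈ J, h i ≤ B) := by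
  have h2 : X ^ J.card * (X + ∑ i ∈ J, h i) < X ^ (k + 1) * (X + B + 1) :=
    (ar_prod X h J).1.trans_lt ((Nat.mul_lt_mul_of_pos_left h1 (by omega)).trans_eq (by ring))
  constructor
  · by_contra hc
    have h3 : X ^ (k + 2) ≤ X ^ J.card := Nat.pow_le_pow_right (by omega) (by omega)
    have h4 : X ^ (k + 1) * (X * X) < X ^ (k + 1) * (X + B + 1) :=
      calc X ^ (k + 1) * (X * X) = X ^ (k + 2) * X := by ring
        _ ≤ _ := Nat.mul_le_mul h3 (Nat.le_add_right _ _)
        _ < _ := h2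
    have := Nat.lt_of_mul_lt_mul_left h4
    nlinarith
  · intro e
    rw [e] at h2
    have := Nat.lt_of_mul_lt_mul_left h2
    omega

theorem ar_sum {M : Type} [AddCommMonoid M] {s : Finset ℕ} {J : Finset (ℕ × Bool)}
    (hJ : J ⊆ s ×ˢ univ) (f : ℕ × Bool → M) : ∑ i ∈ J, f i =
      ∑ r ∈ s, ((if (r, true) ∈ J then f (r, true) else 0) +
        if (r, false) ∈ J then f (r, false) else 0) := by
  rw [← inter_eq_right.2 hJ, ← sum_ite_mem, sum_product, inter_eq_right.2 hJ]
  simp

variable {k X τ c : ℕ} {a p g : ℕ → ℕ}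

theorem Good.sep (G : Good k a X τ c p g) (ε : ℕ → ℤ) (hε : ∀ r, ε r = 0 ∨ ε r = 1 ∨ ε r = -1)
    (h0 : ∑ r ∈ range k, ε r = 0) (h1 : (τ : ℤ) ∣ ∑ r ∈ range k, ε r * (p r - X)) :
    ∀ r < k, ε r = 0 := by
  by_contra hc
  push Not at hc
  classical
  obtain ⟨h2, h3⟩ := Nat.find_spec hc
  have h4 := fun r => Nat.find_min hc (m := r)
  generalize Nat.find hc = r₀ at *
  have e : ∑ r ∈ range k, ε r * (p r - X) = ∑ r ∈ range k, ε r * (p r - c) := by
    have : ∀ y : ℤ, ∑ r ∈ range k, ε r * (p r - y) = ∑ r ∈ range k, ε r * p r := fun y => by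
      simp only [mul_sub, sum_sub_distrib, ← sum_mul, h0, zero_mul, sub_zero]
    rw [this, this]
  have h5 : (g r₀ : ℤ) ∣ ∑ r ∈ range k, ε r * (p r - c) :=
    e ▸ (Int.natCast_dvd_natCast.2 (Nat.dvd_of_mod_eq_zero (G.dvd r₀ h2))).trans h1
  rw [← add_sum_erase _ _ (mem_range.2 h2)] at h5
  have h6 : (g r₀ : ℤ) ∣ ∑ r ∈ (range k).erase r₀, ε r * (p r - c) := by
    refine dvd_sum fun r hr => ?_
    rw [mem_erase, mem_range] at hr
    rcases lt_or_gt_of_ne hr.1 with h | h
    · have : ε r = 0 := by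
        by_contra h7
        exact h4 r h ⟨hr.2, h7⟩
      simp [this]
    · exact Dvd.dvd.mul_left (Nat.modEq_iff_dvd.1 (G.eq r hr.2 r₀ h).symm) _
  have h7 := (dvd_add_left h6).1 h5
  refine G.ne r₀ h2 (Nat.modEq_iff_dvd.2 ?_ : c ≡ p r₀ [MOD g r₀]).symm
  rcases hε r₀ with h | h | h
  · exact absurd h h3
  · simpa [h] using h7
  · rw [h, neg_one_mul, dvd_neg] at h7; exact h7

theorem Good.odd (G : Good k a X τ c p g) : Odd (∏ r ∈ range k, p r * (p r + τ * a r)) := by
  refine prod_induction _ Odd (fun _ _ => Odd.mul) odd_one fun r hr => ?_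
  have h1 := G.pr r (mem_range.1 hr)
  have h2 := G.ge r (mem_range.1 hr)
  have h3 := G.big
  exact (h1.1.odd_of_ne_two (by omega)).mul (h1.2.odd_of_ne_two (by omega))

theorem Good.div_iff (G : Good (k + 1) a X τ c p g) {t t' : ℕ}
    (ht : t + t' = ∑ r ∈ range (k + 1), a r) :
    (∃ I ⊆ range (k + 1), ∑ r ∈ I, a r = t) ↔
      ∃ d e : ℕ, d * e = ∏ r ∈ range (k + 1), p r * (p r + τ * a r) ∧
        d < X ^ k * (X + (∑ r ∈ range (k + 1), (p r - X) + τ * t) + 1) ∧
        e < X ^ k * (X + (∑ r ∈ range (k + 1), (p r - X) + τ * t') + 1) := by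
  classical
  have hA := G.small
  rw [sum_add_distrib, ← mul_sum, ← mul_sum, ← ht, mul_add] at hA
  set C := ∑ r ∈ range (k + 1), (p r - X) with hC
  have hge : ∀ r ∈ range (k + 1), X + (p r - X) = p r := fun r hr => by
    have := G.ge r (mem_range.1 hr); omega
  constructor
  · rintro ⟨I, hI, hs⟩
    have h1 : ∑ r ∈ range (k + 1), (if r ∈ I then a r else 0) = t := by
      rw [sum_ite_mem, inter_eq_right.2 hI, hs]
    have h2 : ∑ r ∈ range (k + 1), (if r ∈ I then 0 else a r) = t' := by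
      have : ∑ r ∈ range (k + 1), ((if r ∈ I then a r else 0) + if r ∈ I then 0 else a r) =
          ∑ r ∈ range (k + 1), a r := sum_congr rfl fun r _ => by split_ifs <;> simp
      rw [sum_add_distrib, h1] at this
      omega
    refine ⟨∏ r ∈ range (k + 1), (X + (p r - X + τ * if r ∈ I then a r else 0)),
      ∏ r ∈ range (k + 1), (X + (p r - X + τ * if r ∈ I then 0 else a r)), ?_,
      ar_up (card_range _) (by rw [sum_add_distrib, ← mul_sum, h1]) ?_,
      ar_up (card_range _) (by rw [sum_add_distrib, ← mul_sum, h2]) ?_⟩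
    · rw [← prod_mul_distrib]
      refine prod_congr rfl fun r hr => ?_
      rw [← add_assoc, ← add_assoc, hge r hr]
      split_ifs <;> ring
    · exact lt_of_le_of_lt (Nat.pow_le_pow_left (by omega) 2) hA
    · exact lt_of_le_of_lt (Nat.pow_le_pow_left (by omega) 2) hA
  · rintro ⟨d, e, h1, h2, h3⟩
    let h : ℕ × Bool → ℕ := fun i => p i.1 - X + if i.2 = true then τ * a i.1 else 0
    have e1 : ∏ r ∈ range (k + 1), p r * (p r + τ * a r) =
        1 * ∏ i ∈ range (k + 1) ×ˢ univ, (X + h i) := by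
      rw [one_mul, prod_product]
      refine prod_congr rfl fun r hr => ?_
      simp only [h, Fintype.univ_bool, mem_singleton, Bool.true_eq_false, not_false_eq_true,
        prod_insert, prod_singleton, if_true, Bool.false_eq_true, if_false, add_zero, ← add_assoc,
        hge r hr, mul_comm]
    obtain ⟨J, K, b, b', u1, u2, u3, u4, u5⟩ := mul_eq_mul_prime_prod
      (p := fun i => X + h i) (fun i hi => by
        have h4 := (mem_product.1 hi).1
        have h5 := G.pr i.1 (mem_range.1 h4)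
        simp only [h, ← add_assoc, hge i.1 h4]
        split_ifs
        exacts [h5.2.prime, h5.1.prime]) (h1.trans e1)
    rw [u4, Nat.eq_one_of_mul_eq_one_right u3.symm, one_mul] at h2
    rw [u5, Nat.eq_one_of_mul_eq_one_left u3.symm, one_mul] at h3
    have hlt : 2 * C + (τ * t + τ * t') < X := by nlinarith
    obtain ⟨v1, v2⟩ := ar_low G.big (by omega) h2
    obtain ⟨v3, v4⟩ := ar_low G.big (by omega) h3
    have c1 : J.card + K.card = 2 * (k + 1) := by
      rw [← card_union_of_disjoint u2, u1]; simp [mul_comm]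
    have c2 : ∑ i ∈ J, h i + ∑ i ∈ K, h i = 2 * C + (τ * t + τ * t') := by
      rw [← sum_union u2, u1, sum_product, ← mul_add, ht, mul_sum, mul_sum, ← sum_add_distrib]
      refine sum_congr rfl fun r _ => ?_
      simp [h]; ring
    have c3 : ∑ i ∈ J, h i = C + τ * t := by
      have := v2 (by omega)
      have := v4 (by omega)
      omega
    have hJ : J ⊆ range (k + 1) ×ˢ univ := u1 ▸ subset_union_left
    let ε : ℕ → ℤ := fun r =>
      (if (r, true) ∈ J then 1 else 0) + (if (r, false) ∈ J then 1 else 0) - 1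
    let I := (range (k + 1)).filter fun r => (r, true) ∈ J
    have d1 : ∑ r ∈ range (k + 1), ε r = 0 := by
      have := ar_sum hJ fun _ => (1 : ℤ)
      simp only [ε]
      rw [sum_sub_distrib, ← this]
      simp [show J.card = k + 1 by omega]
    have d2 : ∑ r ∈ range (k + 1), ε r * (p r - X) = τ * (t - (∑ r ∈ I, a r : ℕ) : ℤ) := by
      have h4 := ar_sum hJ fun i => (h i : ℤ)
      have h5 : ∑ i ∈ J, (h i : ℤ) = ∑ r ∈ range (k + 1), (p r - X : ℤ) + τ * t := by
        rw [← Nat.cast_sum, c3, hC]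
        push_cast
        congr 1
        exact sum_congr rfl fun r hr => Nat.cast_sub (G.ge r (mem_range.1 hr))
      rw [mul_sub, eq_sub_iff_add_eq, ← sub_eq_iff_eq_add'.2 h5, h4, ← sum_sub_distrib, sum_filter,
        Nat.cast_sum, mul_sum, ← sum_add_distrib]
      refine sum_congr rfl fun r hr => ?_
      simp only [ε, h, Nat.cast_add, Nat.cast_sub (G.ge r (mem_range.1 hr))]
      split_ifs <;> simp_all <;> ring
    have d3 := G.sep ε (fun r => by simp only [ε]; split_ifs <;> simp) d1 (d2 ▸ dvd_mul_right _ _)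
    rw [sum_eq_zero fun r hr => by rw [d3 r (mem_range.1 hr), zero_mul]] at d2
    refine ⟨I, filter_subset _ _, ?_⟩
    have := (mul_eq_zero.1 d2.symm).resolve_left (by have := G.tau; omega)
    exact_mod_cast (sub_eq_zero.1 this).symm

end Pool.Agent.Lib.MP_685082_co.DV
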