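import Pool.Agent.Lib.MP_685082_co.NX.L0C

/-! Blow-ups with multiplicities that depend on the level only. -/

namespace Pool.Agent.Lib.MP_685082_co.DV

open Finset Cone NX

section
variable {B : Type} [Fintype B] [PartialOrder B] (ρ : B → ℕ)

open Classical in
/-- number of elements of rank `k` between `x` and `y` -/
noncomputable def cB (k : ℕ) (x y : B) : ℤ := ∑ z, if x ≤ z ∧ z ≤ y ∧ ρ z = k then 1 else 0

variable {ρ} (hc : ∀ x y, x ⋖ y → ρ y = ρ x + 1)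
include hc

theorem cB_left {x y : B} (h : x ≤ y) : cB ρ (ρ x) x y = 1 := by
  rw [cB, sum_eq_single x (fun z _ hz => if_neg fun k => hz (eq_of_rk hc k.1 k.2.2.le).symm)
    (by simp), if_pos ⟨le_rfl, h, rfl⟩]

theorem cB_right {x y : B} (h : x ≤ y) : cB ρ (ρ y) x y = 1 := by
  rw [cB, sum_eq_single y (fun z _ hz => if_neg fun k => hz (eq_of_rk hc k.2.1 k.2.2.ge))
    (by simp), if_pos ⟨h, le_rfl, rfl⟩]

omit hc in
theorem cB_eq (k : ℕ) (x y : B) : cB ρ k x y = {z | x ≤ z ∧ z ≤ y ∧ ρ z = k}.ncard := by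
  classical
  rw [ncard_eq_cnt, cnt_sum, cB]
  push_cast
  exact sum_congr rfl fun z _ => by congr

theorem euler_alt (p q : B) : ∑ k ∈ Icc (ρ p) (ρ q), (-1) ^ k * cB ρ k p q =
    ({z | p ≤ z ∧ z ≤ q ∧ Even (ρ z)}.ncard : ℤ) - {z | p ≤ z ∧ z ≤ q ∧ Odd (ρ z)}.ncard := by
  classical
  rw [ncard_eq_cnt, ncard_eq_cnt, cnt_sum, cnt_sum]
  simp only [cB, mul_sum]
  push_cast
  rw [sum_comm, ← sum_sub_distrib]
  refine sum_congr rfl fun z _ => ?_
  by_cases hz : p ≤ z ∧ z ≤ q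
  · rw [sum_eq_single_of_mem (ρ z) (mem_Icc.2 ⟨rk_le hc hz.1, rk_le hc hz.2⟩)
      (fun k _ hk => by rw [if_neg (fun h => hk h.2.2.symm), mul_zero])]
    rcases Nat.even_or_odd (ρ z) with ha | ha
    · simp [hz, ha, Nat.not_odd_iff_even.2 ha, ha.neg_one_pow]
    · simp [hz, ha, Nat.not_even_iff_odd.2 ha, ha.neg_one_pow]
  · rw [sum_eq_zero fun k _ => by rw [if_neg (fun h => hz ⟨h.1, h.2.1⟩), mul_zero],
      if_neg (fun h => hz ⟨h.1, h.2.1⟩), if_neg (fun h => hz ⟨h.1, h.2.1⟩), sub_zero]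

theorem blow1 [BoundedOrder B] (m n : ℕ) (h0 : ρ ⊥ = 0) (h1 : ρ ⊤ = m + 1)
    (π : ℕ → ℕ) (p0 : π 0 = 0) (p1 : π (n + 1) = m + 1) (p2 : π 1 = 1)
    (ps : ∀ s, π s ≤ π (s + 1) ∧ π (s + 1) ≤ π s + 1)
    (μ : ℕ → ℕ) (hμ : ∀ s, 1 ≤ μ s) (m0 : μ 0 = 1) (m1 : μ (n + 1) = 1)
    (hE : ∀ (x y : B) (a b : ℕ), x ≤ y → a < b → b ≤ n + 1 → ρ x = π a → ρ y = π b →
      (-1) ^ a + (-1) ^ b + ∑ k ∈ Ioo a b, (-1) ^ k * (μ k * cB ρ (π k) x y) = 0)
    (v : Finset ℕ → ℤ) (hv : ∀ S ⊆ Icc 1 n,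
      (v S : ℝ) = (∏ s ∈ S, (μ s : ℝ)) * W ρ ((S.image π).erase (m + 1)) ⊥ ⊤) : IsFlagVec n v := by
  classical
  obtain ⟨P, _, _, _, r, r0, r1, rc, rW, rE⟩ := blowup ρ m n h0 h1 hc π p0 p1 p2 ps
    (fun s _ => μ s) (fun s _ => hμ s) m0 m1
  refine ⟨P, inferInstance, inferInstance, inferInstance, r, r0, r1, rc, fun p q hpq => ?_,
    fun S hS => ?_⟩
  · obtain ⟨x, y, hxy, hx, hy, H⟩ := rE p q hpq
    have h2 := hE x y _ _ hxy (rk_lt rc hpq) (r1 ▸ rk_le rc le_top) hx hy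
    have h3 := euler_alt rc p q
    rw [← Ioc_insert_left (rk_le rc hpq.le), sum_insert (by simp),
      ← Ioo_insert_right (rk_lt rc hpq), sum_insert (by simp), cB_left rc hpq.le,
      cB_right rc hpq.le, sum_congr rfl (g := fun k => (-1) ^ k * (μ k * cB ρ (π k) x y))] at h3
    · exact_mod_cast sub_eq_zero.1 (h3.symm.trans (by linarith))
    · intro k hk
      rw [mem_Ioo] at hk
      rw [cB_eq, H k hk.1 hk.2, sum_const, smul_eq_mul, cB, sum_boole]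
      push_cast
      rw [mul_comm (μ k : ℤ)]
  · have e1 := flag_eq_W rc r0 r1 S (fun h0 => by simpa using hS h0)
    have e4 := l0c_Ww ρ (fun k => ∏ s ∈ S with π s = k, (μ s : ℝ))
      ((S.image π).erase (m + 1)) ⊥ ⊤
    have e5 := prod_fiberwise_of_maps_to (s := S) (t := insert (m + 1) ((S.image π).erase (m + 1)))
      (g := π) (fun s hs => subset_insert_iff.2 (Subset.refl _) (mem_image_of_mem _ hs))
      (fun s => (μ s : ℝ))
    rw [prod_insert (notMem_erase _ _)] at e5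
    rw [rW S hS, e4, ← mul_assoc, e5, ← hv S hS, flag] at e1
    exact_mod_cast e1.symm

end

theorem alt_ends {a b : ℕ} (h : a < b) :
    (-1 : ℤ) ^ a + (-1) ^ b + ∑ k ∈ Ioo a b, (-1) ^ k * 2 = 0 := by
  induction b, h using Nat.le_induction with
  | base => rw [show Ioo a a.succ = ∅ by ext; simp]; simp [pow_succ]
  | succ b h ih =>
    rw [show Ioo a (b + 1) = insert b (Ioo a b) by ext; simp; omega, sum_insert (by simp), pow_succ]
    linarith

end Pool.Agent.Lib.MP_685082_co.DV
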