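import Pool.Agent.Lib.MP_685082_co.NX.Defs

/-! Reductions with a checkable hint that depends on the length of the input only. -/

namespace Pool.Agent.Lib.MP_685082_co.DV

open N68a2faeb

/-- `A` reduces to `B`: for every length there is a short hint `w` that the test `R` accepts with
every input of that length, and with every accepted hint the map `f` is a correct reduction. -/
def Red (A B : DecisionProblem) : Prop :=
  ∃ (p : Polynomial ℕ) (R : List Bool × List Bool → Bool) (f : List Bool × List Bool → List Bool),
    IsPolyTime R ∧ IsPolyTime f ∧
    (∀ m, ∃ w : List Bool, w.length ≤ p.eval m ∧ ∀ x : List Bool, x.length = m → R (x, w) = true) ∧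
    ∀ x w, R (x, w) = true → A x = B (f (x, w))

end Pool.Agent.Lib.MP_685082_co.DV
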