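import Pool.Agent.Lib.MP_685082_co.DV.Good
import Pool.Agent.Lib.PNT.Main

/-! Good systems exist (density of primes, a binary tree of residue classes, pigeonhole). -/

namespace Pool.Agent.Lib.MP_685082_co.DV

open Finset

/-- all elements lie in one class modulo `q` -/
def ExCg (q : ℕ) (S : Finset ℕ) : Prop := ∀ x ∈ S, ∀ y ∈ S, x % q = y % q

lemma ex_split (e : ℕ) (S : Finset ℕ) (h : ExCg (2 ^ e) S) : ∃ A B : Finset ℕ, A ⊆ S ∧ B ⊆ S ∧
    #A + #B = #S ∧ #B ≤ #A ∧ ExCg (2 ^ (e + 1)) A ∧ ExCg (2 ^ (e + 1)) B ∧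
    ∀ x ∈ A, ∀ y ∈ B, x % 2 ^ (e + 1) ≠ y % 2 ^ (e + 1) := by
  have hc := card_filter_add_card_filter_not (s := S) fun x => x / 2 ^ e % 2 = 0
  have h0 : ExCg (2 ^ (e + 1)) (S.filter fun x => x / 2 ^ e % 2 = 0) := by
    intro x hx y hy
    rw [mem_filter] at hx hy
    rw [Nat.mod_pow_succ, Nat.mod_pow_succ, hx.2, hy.2, h x hx.1 y hy.1]
  have h1 : ExCg (2 ^ (e + 1)) (S.filter fun x => ¬ x / 2 ^ e % 2 = 0) := by
    intro x hx y hy
    rw [mem_filter] at hx hy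
    rw [Nat.mod_pow_succ, Nat.mod_pow_succ, h x hx.1 y hy.1, Nat.mod_two_not_eq_zero.1 hx.2,
      Nat.mod_two_not_eq_zero.1 hy.2]
  have h2 : ∀ x ∈ S.filter fun x => x / 2 ^ e % 2 = 0,
      ∀ y ∈ S.filter fun x => ¬ x / 2 ^ e % 2 = 0, x % 2 ^ (e + 1) ≠ y % 2 ^ (e + 1) := by
    intro x hx y hy
    rw [mem_filter] at hx hy
    rw [Nat.mod_pow_succ, Nat.mod_pow_succ, h x hx.1 y hy.1, hx.2, Nat.mod_two_not_eq_zero.1 hy.2]
    have := Nat.two_pow_pos e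
    omega
  rcases le_total (#(S.filter fun x => x / 2 ^ e % 2 = 0))
    (#(S.filter fun x => ¬ x / 2 ^ e % 2 = 0)) with l | l
  · exact ⟨_, _, filter_subset _ _, filter_subset _ _, by omega, l, h1, h0,
      fun x hx y hy => (h2 y hy x hx).symm⟩
  · exact ⟨_, _, filter_subset _ _, filter_subset _ _, hc, l, h0, h1, h2⟩

lemma ex_ref (m D : ℕ) : ∀ (e : ℕ) (S : Finset ℕ), ExCg (2 ^ e) S → 2 ^ D * m < #S →
    ∃ T ⊆ S, ExCg (2 ^ (e + D)) T ∧ m < #T := by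
  induction D with
  | zero => exact fun e S h l => ⟨S, Subset.rfl, h, by simpa using l⟩
  | succ D ih =>
    intro e S h l
    obtain ⟨A, B, hA, -, hc, hl, cA, -, -⟩ := ex_split e S h
    have : 2 ^ D * m < #A := by
      rw [pow_succ, mul_right_comm] at l
      omega
    obtain ⟨T, h1, h2, h3⟩ := ih (e + 1) A cA this
    exact ⟨T, h1.trans hA, by rwa [show e + (D + 1) = e + 1 + D by ring], h3⟩

lemma ex_tree (G m D : ℕ) : ∀ (e k u : ℕ) (S : Finset ℕ), ExCg (2 ^ e) S →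
    (∀ T ⊆ S, ExCg (2 ^ (e + D)) T → #T ≤ G) → k + u ≤ D → 2 ^ D * G * 2 ^ u < #S * 3 ^ u →
    2 * m * 3 ^ u ≤ G * 2 ^ u →
    ∃ c ∈ S, ∃ (T : ℕ → Finset ℕ) (g : ℕ → ℕ), ∀ r < k, T r ⊆ S ∧ m < #(T r) ∧
      ExCg (2 ^ (e + D)) (T r) ∧ g r ∣ 2 ^ (e + D) ∧ (∀ x ∈ T r, x % g r ≠ c % g r) ∧
      ∀ s < k, r < s → ∀ x ∈ T s, x % g r = c % g r := by
  have base : ∀ (n u : ℕ) (S : Finset ℕ), n < #S * 3 ^ u → ∃ c, c ∈ S := by
    intro n u S h
    refine card_pos.1 (Nat.pos_of_ne_zero fun h0 => ?_)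
    simp [h0] at h
  induction D with
  | zero =>
    intro e k u S _ _ hk h _
    obtain ⟨c, hc⟩ := base _ _ _ h
    exact ⟨c, hc, fun _ => ∅, fun _ => 1, fun r hr => by omega⟩
  | succ D ih =>
    intro e k u S hS hG hk h hm
    rcases k with _ | k
    · obtain ⟨c, hc⟩ := base _ _ _ h
      exact ⟨c, hc, fun _ => ∅, fun _ => 1, fun r hr => by omega⟩
    obtain ⟨A, B, hA, hB, hc, hl, cA, cB, hne⟩ := ex_split e S hS
    have eE : e + (D + 1) = e + 1 + D := by ring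
    rw [eE] at hG ⊢
    have hGA : ∀ T ⊆ A, ExCg (2 ^ (e + 1 + D)) T → #T ≤ G := fun T hT => hG T (hT.trans hA)
    have h3 : 0 < 3 ^ u := by positivity
    by_cases hb : #S ≤ 4 * #B
    · have l1 : 2 ^ D * G * 2 ^ u < #A * 3 ^ u := by
        have : #S * 3 ^ u ≤ 2 * #A * 3 ^ u := Nat.mul_le_mul_right _ (by omega)
        have e1 : 2 ^ (D + 1) * G * 2 ^ u = 2 * (2 ^ D * G * 2 ^ u) := by ring
        have e2 : 2 * #A * 3 ^ u = 2 * (#A * 3 ^ u) := by ring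
        omega
      have l2 : 2 ^ D * m < #B := by
        have a1 : #S * 3 ^ u ≤ 4 * #B * 3 ^ u := Nat.mul_le_mul_right _ hb
        have a2 : 2 ^ (D + 1) * (2 * m * 3 ^ u) ≤ 2 ^ (D + 1) * (G * 2 ^ u) :=
          Nat.mul_le_mul_left _ hm
        have e1 : 2 ^ (D + 1) * (2 * m * 3 ^ u) = 4 * (2 ^ D * m) * 3 ^ u := by ring
        have e2 : 2 ^ (D + 1) * (G * 2 ^ u) = 2 ^ (D + 1) * G * 2 ^ u := by ring
        have : 4 * (2 ^ D * m) * 3 ^ u < 4 * #B * 3 ^ u := by omega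
        have := lt_of_mul_lt_mul_right this (Nat.zero_le _)
        omega
      obtain ⟨T0, t1, t2, t3⟩ := ex_ref m D (e + 1) B cB l2
      obtain ⟨c, hcA, T, g, hT⟩ := ih (e + 1) k u A cA hGA (by omega) l1 hm
      refine ⟨c, hA hcA, fun r => Nat.casesOn r T0 T, fun r => Nat.casesOn r (2 ^ (e + 1)) g, ?_⟩
      intro r hr
      rcases r with _ | r
      · refine ⟨t1.trans hB, t3, t2, pow_dvd_pow 2 (by omega),
          fun x hx => (hne c hcA x (t1 hx)).symm, fun s hs h0 x hx => ?_⟩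
        rcases s with _ | s
        · omega
        · exact cA x ((hT s (by omega)).1 hx) c hcA
      · obtain ⟨b1, b2, b3, b4, b5, b6⟩ := hT r (by omega)
        refine ⟨b1.trans hA, b2, b3, b4, b5, fun s hs h0 x hx => ?_⟩
        rcases s with _ | s
        · omega
        · exact b6 s (by omega) (by omega) x hx
    · rcases u with _ | u
      · exfalso
        obtain ⟨T, t1, t2, t3⟩ := ex_ref G (D + 1) e S hS (by simpa using h)
        rw [eE] at t2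
        exact absurd (hG T t1 t2) (by omega)
      have l1 : 2 ^ D * G * 2 ^ u < #A * 3 ^ u := by
        have a1 : 3 * #S * 3 ^ u ≤ 4 * #A * 3 ^ u := Nat.mul_le_mul_right _ (by omega)
        have e1 : 2 ^ (D + 1) * G * 2 ^ (u + 1) = 4 * (2 ^ D * G * 2 ^ u) := by ring
        have e2 : #S * 3 ^ (u + 1) = 3 * #S * 3 ^ u := by ring
        have e3 : 4 * #A * 3 ^ u = 4 * (#A * 3 ^ u) := by ring
        omega
      have l2 : 2 * m * 3 ^ u ≤ G * 2 ^ u := by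
        have e1 : 2 * m * 3 ^ (u + 1) = 3 * (2 * m * 3 ^ u) := by ring
        have e2 : G * 2 ^ (u + 1) = 2 * (G * 2 ^ u) := by ring
        omega
      obtain ⟨c, hcA, T, g, hT⟩ := ih (e + 1) (k + 1) u A cA hGA (by omega) l1 l2
      refine ⟨c, hA hcA, T, g, fun r hr => ?_⟩
      obtain ⟨b1, b2⟩ := hT r hr
      exact ⟨b1.trans hA, b2⟩

lemma ex_mult (k Q G J R m : ℕ) (T : ℕ → Finset ℕ) (a : ℕ → ℕ) (ha : ∀ r < k, R * a r ≤ G)
    (hT : ∀ r < k, m < #(T r) ∧ ExCg Q (T r) ∧ ∀ y ∈ T r, J ≤ y / Q ∧ y / Q < J + G)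
    (hc : (2 * G) ^ k ≤ R * m ^ k) (hm : 0 < m) :
    ∃ d : ℕ, 0 < d ∧ d ≤ R ∧ ∃ p : ℕ → ℕ, ∀ r < k, p r ∈ T r ∧ p r + d * Q * a r ∈ T r := by
  have key : ∀ (t t' : ℕ) (y y' : Fin k → ℕ), t' < t → t ≤ R → (∀ r : Fin k, y r ∈ T r) →
      (∀ r : Fin k, y' r ∈ T r) → (∀ r : Fin k, y r / Q + t * a r = y' r / Q + t' * a r) →
      ∃ d : ℕ, 0 < d ∧ d ≤ R ∧ ∃ p : ℕ → ℕ, ∀ r < k, p r ∈ T r ∧ p r + d * Q * a r ∈ T r := by
    intro t t' y y' l l' h h' e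
    obtain ⟨d, rfl⟩ := Nat.exists_eq_add_of_lt l
    refine ⟨d + 1, by omega, by omega, fun r => if h : r < k then y ⟨r, h⟩ else 0, fun r hr => ?_⟩
    simp only [dif_pos hr]
    refine ⟨h ⟨r, hr⟩, ?_⟩
    have e1 := e ⟨r, hr⟩
    have e2 := (hT r hr).2.1 _ (h ⟨r, hr⟩) _ (h' ⟨r, hr⟩)
    have e3 : y' ⟨r, hr⟩ / Q = y ⟨r, hr⟩ / Q + (d + 1) * a r := by
      have : (t' + d + 1) * a r = (d + 1) * a r + t' * a r := by ring
      simp only at e1
      omega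
    have e4 : y ⟨r, hr⟩ + (d + 1) * Q * a r = y' ⟨r, hr⟩ := by
      rw [← Nat.div_add_mod (y' ⟨r, hr⟩) Q, e3, ← e2]
      conv_lhs => rw [← Nat.div_add_mod (y ⟨r, hr⟩) Q]
      ring
    rw [e4]
    exact h' ⟨r, hr⟩
  obtain ⟨⟨t, y⟩, h1, ⟨t', y'⟩, h2, hne, e⟩ := exists_ne_map_eq_of_card_lt_of_maps_to
    (s := range (R + 1) ×ˢ Fintype.piFinset fun r : Fin k => T r)
    (t := Fintype.piFinset fun _ : Fin k => Ico J (J + 2 * G))
    (f := fun z => fun r : Fin k => z.2 r / Q + z.1 * a r) (by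
      have b : m ^ k ≤ ∏ r : Fin k, #(T r) := by
        have := Finset.pow_card_le_prod univ (fun r : Fin k => #(T r)) m
          fun r _ => (hT r r.2).1.le
        simpa using this
      have b2 : 0 < m ^ k := by positivity
      rw [card_product, card_range, Fintype.card_piFinset, Fintype.card_piFinset]
      simp only [Nat.card_Ico, Nat.add_sub_cancel_left, prod_const, card_univ, Fintype.card_fin]
      calc (2 * G) ^ k < (R + 1) * m ^ k := by rw [add_mul]; omega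
        _ ≤ _ := Nat.mul_le_mul_left _ b) (by
      rintro ⟨t, y⟩ h
      simp only [coe_product, Set.mem_prod, mem_coe, mem_range, Fintype.mem_piFinset] at h
      simp only [mem_coe, Fintype.mem_piFinset, mem_Ico]
      intro r
      have b1 := (hT r r.2).2.2 _ (h.2 r)
      have b2 : t * a r ≤ R * a r := Nat.mul_le_mul_right _ (by omega)
      have b3 := ha r r.2
      omega)
  simp only [mem_product, mem_range, Fintype.mem_piFinset] at h1 h2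
  have e' := fun r => congrFun e r
  rcases lt_trichotomy t t' with l | l | l
  · exact key t' t y' y l (by omega) h2.2 h1.2 fun r => (e' r).symm
  · exfalso
    subst l
    refine hne (Prod.ext rfl (funext fun r => ?_))
    have e1 : y r / Q = y' r / Q := Nat.add_right_cancel (e' r)
    have e2 := (hT r r.2).2.1 _ (h1.2 r) _ (h2.2 r)
    change y r = y' r
    rw [← Nat.div_add_mod (y r) Q, ← Nat.div_add_mod (y' r) Q, e1, e2]
  · exact key t t' y y' l (by omega) h1.2 h2.2 e'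

lemma ex_pow (z : ℕ) (hz : 14 ≤ z) : 80 * z ^ 2 ≤ 2 ^ z := by
  induction z, hz using Nat.le_induction with
  | base => norm_num
  | succ z hz ih => rw [pow_succ 2]; nlinarith

lemma ex_primes : ∃ z₀ : ℕ, ∀ z, z₀ ≤ z → ∀ w, w + z = 20 * z ^ 2 →
    2 ^ w ≤ #((Ico (2 ^ w) (2 ^ (w + z))).filter Nat.Prime) := by
  obtain ⟨x0, hx⟩ := Filter.eventually_atTop.1
    (Pool.Agent.Lib.PNT.theta_tendsto.eventually (lt_mem_nhds (show (1 / 2 : ℝ) < 1 by norm_num)))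
  obtain ⟨N, hN⟩ := exists_nat_ge x0
  refine ⟨max 14 N, fun z hz w hw => ?_⟩
  have z1 : 14 ≤ z := le_of_max_le_left hz
  have z2 : N ≤ z := le_of_max_le_right hz
  set n := w + z with hn
  have hpos : (0 : ℝ) < ((2 ^ n : ℕ) : ℝ) := by positivity
  have h1 : x0 ≤ ((2 ^ n : ℕ) : ℝ) := hN.trans (by
    have := Nat.lt_two_pow_self (n := n)
    exact_mod_cast (by omega : N ≤ 2 ^ n))
  have h2 := hx _ h1
  rw [lt_div_iff₀ hpos] at h2
  have h3 := Chebyshev.theta_le_pi_mul_log (2 ^ n)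
  have h4 : Real.log ((2 ^ n : ℕ) : ℝ) ≤ n := by
    push_cast
    rw [Real.log_pow]
    have := Real.log_two_lt_d9
    have : (0 : ℝ) ≤ n := Nat.cast_nonneg n
    nlinarith
  have h5 : (2 ^ n : ℕ) < 2 * (Nat.primeCounting (2 ^ n) * n) := by
    have := mul_le_mul_of_nonneg_left h4 (Nat.cast_nonneg (α := ℝ) (Nat.primeCounting (2 ^ n)))
    have : ((2 ^ n : ℕ) : ℝ) < 2 * (Nat.primeCounting (2 ^ n) * n) := by linarith
    exact_mod_cast this
  have h6 : 2 * 2 ^ w < Nat.primeCounting (2 ^ n) := by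
    by_contra! l
    have a1 := Nat.mul_le_mul_right n l
    have a2 := Nat.mul_le_mul_left (2 ^ w) (ex_pow z z1)
    have a3 : 2 ^ n = 2 ^ w * 2 ^ z := pow_add 2 w z
    have a4 : 2 ^ w * (80 * z ^ 2) = 2 * (2 * 2 ^ w * n) := by rw [hw]; ring
    omega
  have h7 : (range (2 ^ n + 1)).filter Nat.Prime ⊆
      insert (2 ^ n) (range (2 ^ w) ∪ (Ico (2 ^ w) (2 ^ n)).filter Nat.Prime) := by
    intro x hx
    simp only [mem_filter, mem_range, mem_insert, mem_union, mem_Ico] at hx ⊢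
    by_cases a : x = 2 ^ n
    · exact Or.inl a
    by_cases b : x < 2 ^ w
    · exact Or.inr (Or.inl b)
    · exact Or.inr (Or.inr ⟨⟨by omega, by omega⟩, hx.2⟩)
  have h8 := ((card_le_card h7).trans (card_insert_le _ _)).trans
    (Nat.add_le_add_right (card_union_le _ _) 1)
  rw [card_range, ← Nat.count_eq_card_filter_range] at h8
  have h9 : Nat.primeCounting (2 ^ n) = Nat.count Nat.Prime (2 ^ n + 1) := rfl
  omega

theorem exists_good : ∃ z₀ : ℕ, ∀ (k z : ℕ) (a : ℕ → ℕ), z₀ ≤ z → k ≤ z → (∀ r < k, a r < 2 ^ z) →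
    ∃ (X τ c : ℕ) (p g : ℕ → ℕ), Good k a X τ c p g ∧ X < 2 ^ (20 * z ^ 2 + 2) ∧
      τ < 2 ^ (20 * z ^ 2 + 2) ∧ c < 2 ^ (20 * z ^ 2 + 2) ∧
      ∀ r < k, p r + τ * a r < 2 ^ (20 * z ^ 2 + 2) ∧ g r < 2 ^ (20 * z ^ 2 + 2) := by
  obtain ⟨z₀, hz₀⟩ := ex_primes
  refine ⟨max 2 z₀, fun k z a hz hk ha => ?_⟩
  have z1 : 2 ≤ z := le_of_max_le_left hz
  have zz : 2 * z ≤ z ^ 2 := by nlinarith
  -- exponents: `m = 2 ^ μ`, `G = 2 ^ γ`, `Q = 2 ^ (3 z)`, window `2 ^ (3 z + γ)`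
  obtain ⟨μ, hμ⟩ : ∃ μ, μ = 2 * z ^ 2 + 3 * z := ⟨_, rfl⟩
  obtain ⟨γ, hγ⟩ : ∃ γ, γ = μ + 2 * z + 1 := ⟨_, rfl⟩
  obtain ⟨v, hv⟩ : ∃ v, 3 * z + γ + v + z = 20 * z ^ 2 :=
    ⟨20 * z ^ 2 - (3 * z + γ + z), by omega⟩
  set w := 3 * z + γ + v with hw
  have hP := hz₀ z (le_of_max_le_right hz) w hv
  have p2 : ∀ i : ℕ, 0 < 2 ^ i := fun i => Nat.two_pow_pos i
  obtain ⟨j, -, hj⟩ := exists_le_card_fiber_of_mul_le_card_of_maps_to
    (s := (Ico (2 ^ w) (2 ^ (w + z))).filter Nat.Prime) (t := range (2 ^ (v + z)))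
    (f := fun x => x / 2 ^ (3 * z) / 2 ^ γ) (n := 2 ^ (2 * z + γ)) (by
      intro x hx
      rw [mem_filter, mem_Ico] at hx
      rw [mem_range, Nat.div_lt_iff_lt_mul (p2 _), Nat.div_lt_iff_lt_mul (p2 _), ← pow_add,
        ← pow_add, show v + z + γ + 3 * z = w + z by omega]
      exact hx.1.2) ⟨0, mem_range.2 (p2 _)⟩ (by
      rw [card_range, ← pow_add, show v + z + (2 * z + γ) = w by omega]
      exact hP)
  set S := ((Ico (2 ^ w) (2 ^ (w + z))).filter Nat.Prime).filter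
    fun x => x / 2 ^ (3 * z) / 2 ^ γ = j with hS
  have mem : ∀ x ∈ S, 2 ^ w ≤ x ∧ x < 2 ^ (w + z) ∧ x.Prime ∧ j * 2 ^ γ ≤ x / 2 ^ (3 * z) ∧
      x / 2 ^ (3 * z) < j * 2 ^ γ + 2 ^ γ := by
    intro x hx
    simp only [hS, mem_filter, mem_Ico] at hx
    obtain ⟨⟨⟨a1, a2⟩, a3⟩, rfl⟩ := hx
    exact ⟨a1, a2, a3, Nat.div_mul_le_self _ _, Nat.lt_div_mul_add (p2 γ)⟩
  obtain ⟨c, hc, T, g, hT⟩ := ex_tree (2 ^ γ) (2 ^ μ) (3 * z) 0 k (2 * z) S
    (fun x _ y _ => by simp [Nat.mod_one]) (by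
      intro T hT cT
      rw [zero_add] at cT
      have := card_le_card_of_injOn (s := T) (t := Ico (j * 2 ^ γ) (j * 2 ^ γ + 2 ^ γ))
        (fun x => x / 2 ^ (3 * z)) (fun x hx => by
          simpa using (mem x (hT hx)).2.2.2) (fun x hx y hy e => by
          have e1 : x / 2 ^ (3 * z) = y / 2 ^ (3 * z) := e
          rw [← Nat.div_add_mod x (2 ^ (3 * z)), ← Nat.div_add_mod y (2 ^ (3 * z)), e1,
            cT x hx y hy])
      simpa using this) (by omega) (by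
      have a1 : 8 ^ z < 9 ^ z := Nat.pow_lt_pow_left (by norm_num) (by omega)
      calc 2 ^ (3 * z) * 2 ^ γ * 2 ^ (2 * z) = 2 ^ (2 * z + γ) * 8 ^ z := by
            rw [pow_mul 2 3, pow_add]; ring
        _ < 2 ^ (2 * z + γ) * 9 ^ z := Nat.mul_lt_mul_of_pos_left a1 (p2 _)
        _ ≤ #S * 3 ^ (2 * z) := by rw [pow_mul 3 2]; exact Nat.mul_le_mul_right _ hj) (by
      have a1 : 3 ^ (2 * z) ≤ 4 ^ (2 * z) := Nat.pow_le_pow_left (by norm_num) _
      calc 2 * 2 ^ μ * 3 ^ (2 * z) ≤ 2 * 2 ^ μ * 4 ^ (2 * z) := Nat.mul_le_mul_left _ a1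
        _ = 2 ^ γ * 2 ^ (2 * z) := by
            rw [hγ, show (4 : ℕ) = 2 * 2 by norm_num, mul_pow, pow_add, pow_add]; ring)
  rw [zero_add] at hT
  obtain ⟨d, d0, d1, p, hp⟩ := ex_mult k (2 ^ (3 * z)) (2 ^ γ) (j * 2 ^ γ) (2 ^ ((2 * z + 2) * z))
    (2 ^ μ) T a (fun r hr => by
      refine (Nat.mul_le_mul_left _ (ha r hr).le).trans ?_
      rw [← pow_add]
      exact Nat.pow_le_pow_right (by norm_num) (by nlinarith))
    (fun r hr => ⟨(hT r hr).2.1, (hT r hr).2.2.1, fun y hy => (mem y ((hT r hr).1 hy)).2.2.2⟩) (by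
      rw [← pow_succ', ← pow_mul, ← pow_mul, ← pow_add]
      refine Nat.pow_le_pow_right (by norm_num) ?_
      have := Nat.mul_le_mul_left (2 * z + 2) hk
      rw [hγ]
      nlinarith) (p2 _)
  set X := j * 2 ^ γ * 2 ^ (3 * z) with hX
  have win : ∀ x ∈ S, X ≤ x ∧ x < X + 2 ^ (3 * z + γ) := by
    intro x hx
    obtain ⟨-, -, -, a1, a2⟩ := mem x hx
    rw [Nat.le_div_iff_mul_le (p2 _)] at a1
    rw [Nat.div_lt_iff_lt_mul (p2 _), add_mul, ← pow_add, add_comm γ] at a2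
    exact ⟨a1, a2⟩
  have hXl : 2 ^ w ≤ X := by
    have a1 := ((mem c hc).1.trans_lt (win c hc).2)
    have a2 : X + 2 ^ (3 * z + γ) = 2 ^ (3 * z + γ) * (j + 1) := by rw [hX, pow_add]; ring
    rw [a2, hw, pow_add _ _ v] at a1
    have a3 : 2 ^ v ≤ j := Nat.lt_succ_iff.1 (lt_of_mul_lt_mul_left a1 (Nat.zero_le _))
    calc 2 ^ w = 2 ^ v * 2 ^ γ * 2 ^ (3 * z) := by rw [hw, pow_add, pow_add]; ring
      _ ≤ X := Nat.mul_le_mul_right _ (Nat.mul_le_mul_right _ a3)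
  have top : ∀ x ∈ S, x < 2 ^ (20 * z ^ 2 + 2) := fun x hx =>
    (mem x hx).2.1.trans (Nat.pow_lt_pow_right (by norm_num) (by omega))
  refine ⟨X, d * 2 ^ (3 * z), c, p, g, ⟨?_, Nat.mul_pos d0 (p2 _),
    fun r hr => ⟨(mem _ ((hT r hr).1 (hp r hr).1)).2.2.1, (mem _ ((hT r hr).1 (hp r hr).2)).2.2.1⟩,
    fun r hr => (win _ ((hT r hr).1 (hp r hr).1)).1, ?_,
    fun r hr => Nat.mod_eq_zero_of_dvd ((hT r hr).2.2.2.1.mul_left d),
    fun r hr => (hT r hr).2.2.2.2.1 _ (hp r hr).1,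
    fun s hs r hr => (hT r (hr.trans hs)).2.2.2.2.2 s hs hr _ (hp s hs).1⟩,
    (win c hc).1.trans_lt (top c hc), ?_, top c hc,
    fun r hr => ⟨top _ ((hT r hr).1 (hp r hr).2), ?_⟩⟩
  · exact lt_of_lt_of_le (Nat.pow_lt_pow_right (a := 2) (m := 1) (by norm_num) (by omega)) hXl
  · have a1 : ∑ r ∈ range k, (2 * (p r - X) + d * 2 ^ (3 * z) * a r) ≤
        k * (2 * 2 ^ (3 * z + γ)) := by
      have := sum_le_card_nsmul (range k) (fun r => 2 * (p r - X) + d * 2 ^ (3 * z) * a r)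
        (2 * 2 ^ (3 * z + γ)) fun r hr => by
          have b1 := win _ ((hT r (mem_range.1 hr)).1 (hp r (mem_range.1 hr)).1)
          have b2 := win _ ((hT r (mem_range.1 hr)).1 (hp r (mem_range.1 hr)).2)
          omega
      simpa using this
    have a2 : k * (2 * 2 ^ (3 * z + γ)) ≤ 2 ^ (z + (3 * z + γ + 1)) := by
      rw [pow_add 2 z, pow_succ' 2 (3 * z + γ)]
      exact Nat.mul_le_mul_right _ (hk.trans Nat.lt_two_pow_self.le)
    refine lt_of_le_of_lt (Nat.pow_le_pow_left (a1.trans a2) 2) (lt_of_lt_of_le ?_ hXl)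
    rw [← pow_mul]
    exact Nat.pow_lt_pow_right (by norm_num) (by omega)
  · refine lt_of_le_of_lt (Nat.mul_le_mul_right _ d1) ?_
    rw [← pow_add]
    exact Nat.pow_lt_pow_right (by norm_num) (by nlinarith)
  · exact lt_of_le_of_lt (Nat.le_of_dvd (p2 _) (hT r hr).2.2.2.1)
      (Nat.pow_lt_pow_right (by norm_num) (by omega))

end Pool.Agent.Lib.MP_685082_co.DV
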