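import Mathlib

/-! Systems of pairs of primes with prescribed differences. -/

namespace Pool.Agent.Lib.MP_685082_co.DV

open Finset

/-- pairs of primes `p r`, `p r + τ * a r` in a short window above `X`, whose base points are
separated by the moduli `g r` -/
structure Good (k : ℕ) (a : ℕ → ℕ) (X τ c : ℕ) (p g : ℕ → ℕ) : Prop where
  big : 2 < X
  tau : 0 < τ
  pr : ∀ r < k, (p r).Prime ∧ (p r + τ * a r).Prime
  ge : ∀ r < k, X ≤ p r
  small : (∑ r ∈ range k, (2 * (p r - X) + τ * a r)) ^ 2 < X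
  dvd : ∀ r < k, τ % g r = 0
  ne : ∀ r < k, p r % g r ≠ c % g r
  eq : ∀ s < k, ∀ r < s, p s % g r = c % g r

end Pool.Agent.Lib.MP_685082_co.DV
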