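import Pool.Agent.Lib.Complexity.CookLevin

/-! Primes have short certificates. -/

namespace Pool.Agent.Lib.MP_685082_co.DV

open Pool.Agent.Lib.Complexity

/-- modular power -/
def pttPow (g e m : ℤ) : ℤ := g ^ e.toNat % (|m| + 1)

theorem ptt_foldr (g M : ℤ) (l : List Bool) :
    l.foldr (fun b s => (if b = true then s * s * g else s * s) % M) (1 % M)
      = g ^ bval l % M := by
  induction l with
  | nil => simp
  | cons b l ih =>
    rw [List.foldr_cons, ih, bval_cons]
    have h : g ^ bval l % M ≡ g ^ bval l [ZMOD M] := Int.mod_modEq _ _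
    cases b
    · have := h.mul h
      rw [← pow_add, ← two_mul] at this
      simpa using this.eq
    · have := (h.mul h).mul_right g
      rw [← pow_add, ← two_mul, ← pow_succ] at this
      simpa using this.eq

@[fun_prop] theorem ptt_pow_pt {α : Type} [Enc α] {g e m : α → ℤ} (hg : PT g) (he : PT e)
    (hm : PT m) : PT fun a => pttPow (g a) (e a) (m a) := by
  refine (PT.foldr (l := fun a => (e a).toNat.bits) (init := fun a => 1 % (|m a| + 1))
    (f := fun a b s => (if b = true then s * s * g a else s * s) % (|m a| + 1))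
    (by fun_prop) (by fun_prop) (by fun_prop) (B := fun a => 4 * sz (m a) + 1)
    (PT.pb_nat (by fun_prop)) fun a i => ?_).of_eq fun a => ?_
  · rw [ptt_foldr]
    refine sz_int_le ?_
    have h0 : 0 < |m a| + 1 := by positivity
    have h1 := Int.emod_nonneg (g a ^ bval ((e a).toNat.bits.drop i)) h0.ne'
    have h2 := Int.emod_lt_of_pos (g a ^ bval ((e a).toNat.bits.drop i)) h0
    have h3 := natAbs_lt_two_pow_sz (m a)
    have h4 := Int.natCast_natAbs (m a)
    omega
  · rw [ptt_foldr, bval_bits, pttPow]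

@[fun_prop] theorem ptt_prod_pt {α : Type} [Enc α] {l : α → List ℤ} (hl : PT l) :
    PT fun a => (l a).prod := by
  refine (PT.foldr (f := fun _ b x => b * x) hl (PT.const 1) (by fun_prop)
    (B := fun a => 4 * (sz (l a) + 1) + 1) (PT.pb_nat (by fun_prop)) fun a i => ?_).of_eq
    fun a => by rfl
  have key : ∀ l : List ℤ, (l.foldr (fun b x => b * x) 1).natAbs ≤ 2 ^ sz l := by
    intro l
    induction l with
    | nil => simp
    | cons b l ih =>
      have h1 := (natAbs_lt_two_pow_sz b).le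
      simp only [List.foldr_cons, sz_cons, pow_succ, Int.natAbs_mul, pow_add]
      have := Nat.mul_le_mul h1 ih
      omega
  have h0 := key ((l a).drop i)
  have h1 := sz_int_le (z := ((l a).drop i).foldr (fun b x => b * x) 1)
    (k := sz ((l a).drop i) + 1) (by
      have : 0 < 2 ^ sz ((l a).drop i) := by positivity
      rw [pow_succ]; omega)
  have h2 : sz ((l a).drop i) ≤ sz (l a) := sz_le_of_sublist (List.drop_sublist _ _)
  omega

/-- one line of a certificate: a number, a generator and the factors of the predecessor -/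
def pttOk (P : List ℤ) (x : ℤ × ℤ × List ℤ) : Bool :=
  decide (2 ≤ x.1) && decide (x.2.2.prod = x.1 - 1) &&
    decide (pttPow x.2.1 (x.1 - 1) (x.1 - 1) = 1) &&
    x.2.2.all fun f => decide (f ∈ P) && decide (pttPow x.2.1 ((x.1 - 1) / f) (x.1 - 1) ≠ 1)

/-- the check of a certificate -/
def pttChk (p : ℤ) (C : List (ℤ × ℤ × List ℤ)) : Bool :=
  decide (p ∈ C.map fun y => y.1) && C.all fun x => pttOk (C.map fun y => y.1) x

theorem ptt_chk_pt : PT fun a : ℤ × List (ℤ × ℤ × List ℤ) => pttChk a.1 a.2 := by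
  unfold pttChk pttOk
  fun_prop

theorem ptt_pow_iff {n : ℕ} (hn : 2 ≤ n) (g : ℤ) (k : ℕ) :
    pttPow g k ((n : ℤ) - 1) = 1 ↔ (g : ZMod n) ^ k = 1 := by
  have h1 : |(n : ℤ) - 1| + 1 = n := by rw [abs_of_nonneg (by omega)]; ring
  have h2 : (1 : ℤ) % n = 1 := Int.emod_eq_of_lt (by omega) (by omega)
  have h3 := ZMod.intCast_eq_intCast_iff' (g ^ k) 1 n
  rw [pttPow, h1, Int.toNat_natCast, ← h2, ← h3]
  push_cast
  rfl

theorem ptt_sound (C : List (ℤ × ℤ × List ℤ))
    (hC : ∀ x ∈ C, pttOk (C.map fun y => y.1) x = true) (n : ℕ) :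
    (n : ℤ) ∈ C.map (fun y => y.1) → n.Prime := by
  have h2 : ∀ f ∈ C.map (fun y => y.1), 2 ≤ f := by
    intro f hf
    obtain ⟨x, hx, rfl⟩ := List.mem_map.1 hf
    have := hC x hx
    simp only [pttOk, Bool.and_eq_true, decide_eq_true_eq] at this
    exact this.1.1.1
  induction n using Nat.strong_induction_on with
  | _ n ih =>
    intro hn
    obtain ⟨⟨r, g, fs⟩, hx, rfl : r = n⟩ := List.mem_map.1 hn
    have h := hC _ hx
    simp only [pttOk, Bool.and_eq_true, decide_eq_true_eq, List.all_eq_true] at h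
    obtain ⟨⟨⟨ha, hb⟩, hc⟩, hd⟩ := h
    have hn2 : 2 ≤ n := by omega
    have e : (n : ℤ) - 1 = ((n - 1 : ℕ) : ℤ) := by omega
    refine lucas_primality n (g : ZMod n) ?_ fun q hq hdvd => ?_
    · rw [← ptt_pow_iff hn2, ← e]; exact hc
    · have h3 : (q : ℤ) ∣ fs.prod := by rw [hb, e]; exact_mod_cast hdvd
      obtain ⟨f, hf, hqf⟩ := (Nat.prime_iff_prime_int.1 hq).dvd_prod_iff.1 h3
      obtain ⟨hfP, hne⟩ := hd f hf
      have hf2 := h2 f hfP
      have hle : f ≤ (n : ℤ) - 1 := Int.le_of_dvd (by omega) (hb ▸ List.dvd_prod hf)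
      lift f to ℕ using (by omega)
      have hp : f.Prime := ih f (by omega) hfP
      obtain rfl : q = f := (Nat.prime_dvd_prime_iff_eq hq hp).1 (by exact_mod_cast hqf)
      rw [Ne, ← ptt_pow_iff hn2, Int.natCast_div, ← e]
      exact hne

theorem ptt_closed (n : ℕ) (hn : 1 ≤ n) : ∃ L : List ℕ, (∀ r ∈ L, r.Prime ∧ r ≤ n) ∧
    (∀ q, q.Prime → q ∣ n → q = 2 ∨ q ∈ L) ∧
    (∀ r ∈ L, ∀ q, q.Prime → q ∣ r - 1 → q = 2 ∨ q ∈ L) ∧ 2 ^ L.length ≤ n := by
  induction n using Nat.strong_induction_on with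
  | _ n ih =>
    by_cases h1 : n = 1
    · subst h1
      exact ⟨[], by simp, fun q hq h => absurd (Nat.dvd_one.1 h) hq.ne_one, by simp, by simp⟩
    by_cases hp : n.Prime
    · rcases hp.eq_two_or_odd' with rfl | ⟨m, rfl⟩
      · exact ⟨[], by simp, fun q hq h => Or.inl ((Nat.prime_dvd_prime_iff_eq hq hp).1 h),
          by simp, by simp⟩
      · obtain ⟨L, a1, a2, a3, a4⟩ := ih m (by omega) (by omega)
        refine ⟨(2 * m + 1) :: L, fun r hr => ?_, fun q hq h => ?_, fun r hr q hq h => ?_, ?_⟩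
        · rcases List.mem_cons.1 hr with rfl | hr
          · exact ⟨hp, le_rfl⟩
          · exact ⟨(a1 r hr).1, by have := (a1 r hr).2; omega⟩
        · exact Or.inr (by simp [(Nat.prime_dvd_prime_iff_eq hq hp).1 h])
        · rcases List.mem_cons.1 hr with rfl | hr
          · rcases (Nat.Prime.dvd_mul hq).1 (show q ∣ 2 * m from h) with h | h
            · exact Or.inl ((Nat.prime_dvd_prime_iff_eq hq Nat.prime_two).1 h)
            · exact (a2 q hq h).imp id (List.mem_cons_of_mem _)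
          · exact (a3 r hr q hq h).imp id (List.mem_cons_of_mem _)
        · rw [List.length_cons, pow_succ]; omega
    · obtain ⟨a, b, ha, hb, rfl⟩ := (Nat.not_prime_iff_exists_mul_eq (by omega)).1 hp
      have ha0 : 1 ≤ a := Nat.pos_of_ne_zero (by rintro rfl; simp at hn)
      have hb0 : 1 ≤ b := Nat.pos_of_ne_zero (by rintro rfl; simp at hn)
      obtain ⟨L, a1, a2, a3, a4⟩ := ih a ha ha0
      obtain ⟨M, b1, b2, b3, b4⟩ := ih b hb hb0
      refine ⟨L ++ M, fun r hr => ?_, fun q hq h => ?_, fun r hr q hq h => ?_, ?_⟩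
      · rcases List.mem_append.1 hr with hr | hr
        · exact ⟨(a1 r hr).1, (a1 r hr).2.trans ha.le⟩
        · exact ⟨(b1 r hr).1, (b1 r hr).2.trans hb.le⟩
      · rcases (Nat.Prime.dvd_mul hq).1 h with h | h
        · exact (a2 q hq h).imp id (List.mem_append_left _)
        · exact (b2 q hq h).imp id (List.mem_append_right _)
      · rcases List.mem_append.1 hr with hr | hr
        · exact (a3 r hr q hq h).imp id (List.mem_append_left _)
        · exact (b3 r hr q hq h).imp id (List.mem_append_right _)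
      · rw [List.length_append, pow_add]; exact Nat.mul_le_mul a4 b4

theorem ptt_gen (r : ℕ) : ∃ g : ℕ, r.Prime → g < r ∧ (g : ZMod r) ^ (r - 1) = 1 ∧
    ∀ q : ℕ, q.Prime → q ∣ r - 1 → (g : ZMod r) ^ ((r - 1) / q) ≠ 1 := by
  by_cases hr : r.Prime
  · obtain ⟨a, h1, h2⟩ := reverse_lucas_primality r hr
    have : NeZero r := ⟨hr.ne_zero⟩
    exact ⟨a.val, fun _ => ⟨ZMod.val_lt a, by simpa using h1, by simpa using h2⟩⟩
  · exact ⟨0, fun h => absurd h hr⟩

theorem ptt_len (l : List ℕ) (h : ∀ x ∈ l, 2 ≤ x) : 2 ^ l.length ≤ l.prod := by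
  induction l with
  | nil => simp
  | cons a l ih =>
    rw [List.length_cons, List.prod_cons, pow_succ']
    exact Nat.mul_le_mul (h a (by simp)) (ih fun x hx => h x (by simp [hx]))

theorem ptt_complete (p b : ℕ) (hp : p.Prime) (hb : p < 2 ^ b) :
    ∃ C : List (ℤ × ℤ × List ℤ), sz C ≤ b * (8 * b + 5 + b * (4 * b + 2)) ∧
      pttChk p C = true := by
  obtain ⟨L, a1, a2, a3, a4⟩ := ptt_closed p hp.one_le
  choose g hg using ptt_gen
  have b1 : ∀ r ∈ 2 :: L, r.Prime ∧ r ≤ p := by
    intro r hr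
    rcases List.mem_cons.1 hr with rfl | hr
    · exact ⟨Nat.prime_two, hp.two_le⟩
    · exact a1 r hr
  have b3 : ∀ r ∈ 2 :: L, ∀ q, q.Prime → q ∣ r - 1 → q ∈ 2 :: L := by
    intro r hr q hq h
    rcases List.mem_cons.1 hr with rfl | hr
    · exact absurd (Nat.dvd_one.1 h) hq.ne_one
    · exact List.mem_cons.2 (a3 r hr q hq h)
  have b2 : p ∈ 2 :: L := List.mem_cons.2 (a2 p hp dvd_rfl)
  have b4 : (2 :: L).length ≤ b :=
    (Nat.pow_lt_pow_iff_right (by omega : 1 < 2)).1 (a4.trans_lt hb)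
  generalize 2 :: L = S at b1 b2 b3 b4
  have hs : ∀ n : ℕ, n ≤ p → sz (n : ℤ) ≤ 4 * b + 1 := fun n hn =>
    sz_int_le (by rw [Int.natAbs_natCast]; omega)
  refine ⟨S.map fun r : ℕ => ((r : ℤ), (g r : ℤ), (r - 1).primeFactorsList.map fun q : ℕ => (q : ℤ)),
    ?_, ?_⟩
  · refine (sz_list_le (B := 8 * b + 4 + b * (4 * b + 2)) fun x hx => ?_).trans ?_
    · obtain ⟨r, hr, rfl⟩ := List.mem_map.1 hx
      obtain ⟨c1, c2⟩ := b1 r hr
      have c3 := c1.two_le
      have d1 := hs r c2
      have d2 := hs (g r) (by have := (hg r c1).1; omega)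
      have d3 := sz_list_le (l := (r - 1).primeFactorsList.map fun q : ℕ => (q : ℤ))
        (B := 4 * b + 1) fun y hy => by
          obtain ⟨q, hq, rfl⟩ := List.mem_map.1 hy
          exact hs q (by have := Nat.le_of_mem_primeFactorsList hq; omega)
      have d4 := ptt_len (r - 1).primeFactorsList fun y hy =>
        (Nat.prime_of_mem_primeFactorsList hy).two_le
      rw [Nat.prod_primeFactorsList (by omega)] at d4
      have d5 : (r - 1).primeFactorsList.length < b :=
        (Nat.pow_lt_pow_iff_right (by omega : 1 < 2)).1 (by omega)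
      rw [List.length_map] at d3
      have d6 := Nat.mul_le_mul_right (4 * b + 1 + 1) d5.le
      simp only [sz_pair]
      have : b * (4 * b + 1 + 1) = b * (4 * b + 2) := rfl
      omega
    · rw [List.length_map]
      exact Nat.mul_le_mul b4 (by omega)
  · have hm : ∀ q ∈ S, (q : ℤ) ∈ (S.map fun r : ℕ => ((r : ℤ), (g r : ℤ),
        (r - 1).primeFactorsList.map fun q : ℕ => (q : ℤ))).map fun y => y.1 := fun q hq =>
      List.mem_map.2 ⟨_, List.mem_map.2 ⟨q, hq, rfl⟩, rfl⟩
    simp only [pttChk, Bool.and_eq_true, decide_eq_true_eq, List.all_eq_true]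
    refine ⟨hm p b2, fun x hx => ?_⟩
    obtain ⟨r, hr, rfl⟩ := List.mem_map.1 hx
    obtain ⟨c1, c2⟩ := b1 r hr
    have c3 := c1.two_le
    obtain ⟨-, g2, g3⟩ := hg r c1
    have e : (r : ℤ) - 1 = ((r - 1 : ℕ) : ℤ) := by omega
    simp only [pttOk, Bool.and_eq_true, decide_eq_true_eq, List.all_eq_true]
    refine ⟨⟨⟨by omega, ?_⟩, ?_⟩, fun f hf => ?_⟩
    · rw [e, ← Nat.cast_list_prod, Nat.prod_primeFactorsList (by omega)]
    · have := (ptt_pow_iff c3 (g r) (r - 1)).2 (by simpa using g2)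
      rwa [← e] at this
    · obtain ⟨q, hq, rfl⟩ := List.mem_map.1 hf
      have q1 := Nat.prime_of_mem_primeFactorsList hq
      have q2 := Nat.dvd_of_mem_primeFactorsList hq
      refine ⟨hm q (b3 r hr q q1 q2), fun h => g3 q q1 q2 ?_⟩
      have := (ptt_pow_iff c3 (g r) ((r - 1) / q)).1 (by rwa [Int.natCast_div, ← e])
      simpa using this

theorem pratt : ∃ (chk : ℤ × T → Bool) (q : Polynomial ℕ), PT chk ∧
    (∀ (p : ℕ) (w : T), chk (p, w) = true → p.Prime) ∧
    ∀ p b : ℕ, p.Prime → p < 2 ^ b → ∃ w : T, sz w ≤ q.eval b ∧ chk (p, w) = true := by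
  refine ⟨fun a => pttChk a.1 (rd a.2),
    Polynomial.X * (8 * Polynomial.X + 5 + Polynomial.X * (4 * Polynomial.X + 2)),
    ptt_chk_pt.comp (f := fun a : ℤ × T => (a.1, (rd a.2 : List (ℤ × ℤ × List ℤ))))
      (by fun_prop), fun p w h => ?_, fun p b hp hb => ?_⟩
  · simp only [pttChk, Bool.and_eq_true, decide_eq_true_eq, List.all_eq_true] at h
    exact ptt_sound _ h.2 p h.1
  · obtain ⟨C, h1, h2⟩ := ptt_complete p b hp hb
    refine ⟨enc C, ?_, by simpa using h2⟩
    have e : sz (enc C) = sz C := rfl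
    rw [e]
    simpa using h1

end Pool.Agent.Lib.MP_685082_co.DV
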