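import Pool.Agent.Lib.MP_685082_co.NX.L0S

/-! Four elements of rank three that form two pairs of twins. -/

namespace Pool.Agent.Lib.MP_685082_co.DV

open Finset Cone NX

/-- the flag numbers before doubling -/
def half (u v N : ℕ) (S : Finset ℕ) : ℕ :=
  if 1 ∈ S ∨ 2 ∈ S then (if 4 ∈ S ∨ 5 ∈ S then N else u)
  else if 4 ∈ S ∨ (3 ∈ S ∧ 5 ∈ S) then v else if 5 ∈ S then v - 1 else if 3 ∈ S then 2 else 1

/-- the vectors of the slice -/
def vec (u v N : ℕ) (S : Finset ℕ) : ℕ := 2 ^ S.card * half u v N S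

section
variable {P : Type} [Fintype P] [PartialOrder P] {ρ : P → ℕ} (hc : ∀ x y, x ⋖ y → ρ y = ρ x + 1)
  (he : ∀ x y : P, x < y →
    {z | x ≤ z ∧ z ≤ y ∧ Even (ρ z)}.ncard = {z | x ≤ z ∧ z ≤ y ∧ Odd (ρ z)}.ncard)
include hc he

theorem two_le {x y : P} (h : x ≤ y) {k : ℕ} (h1 : ρ x < k) (h2 : k < ρ y) :
    2 ≤ cnt fun z => ρ z = k ∧ x < z ∧ z < y := by
  obtain ⟨u, u1, u2, u3⟩ := exists_rank hc h (k - 1) (by omega) (by omega)
  obtain ⟨w, w1, w2, w3⟩ := exists_rank hc u3 (k + 1) (by omega) (by omega)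
  rw [← l0s_mid hc he (lt_of_le_of_ne w2 (by rintro rfl; omega)) (by omega)]
  refine cnt_mono fun z hz => ⟨?_, u2.trans_lt hz.1, hz.2.trans_le w3⟩
  have := rk_lt hc hz.1
  have := rk_lt hc hz.2
  omega

theorem partner [BoundedOrder P] (h0 : ρ ⊥ = 0) (h1 : 5 ≤ ρ ⊤)
    (hA : ∀ a, ρ a = 1 → cnt (fun z => ρ z = 3 ∧ a < z ∧ z < ⊤) = 2)
    (hY : ∀ y, ρ y = 4 → cnt (fun z => ρ z = 3 ∧ ⊥ < z ∧ z < y) = 2) {z₀ : P} (hz : ρ z₀ = 3) :
    ∃ z₁, z₁ ≠ z₀ ∧ ρ z₁ = 3 ∧ (∀ a, ρ a = 1 → (a < z₀ ↔ a < z₁)) ∧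
      (∀ y, ρ y = 4 → (z₀ < y ↔ z₁ < y)) ∧ (∃ a, ρ a = 1 ∧ a < z₀) ∧
      ∀ z a, ρ z = 3 → ρ a = 1 → a < z₀ → a < z → z = z₀ ∨ z = z₁ := by
  have top : ∀ z, ρ z = 3 → z < ⊤ := fun z h => lt_top_iff_ne_top.2 (by rintro rfl; omega)
  have bot : ∀ z, ρ z = 3 → ⊥ < z := fun z h => bot_lt_iff_ne_bot.2 (by rintro rfl; omega)
  have key : ∀ a y z, ρ a = 1 → ρ y = 4 → a < y → ρ z = 3 → (a < z ↔ z < y) := by
    intro a y z ha hy h h3
    have h2 := two_le hc he h.le (k := 3) (by omega) (by omega)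
    exact ⟨fun k => (eq_of_cnt_le (fun u hu => ⟨hu.1, hu.2.1, top u hu.1⟩) ((hA a ha).le.trans h2) z
        ⟨h3, k, top z h3⟩).2.2,
      fun k => (eq_of_cnt_le (fun u hu => ⟨hu.1, bot u hu.1, hu.2.2⟩) ((hY y hy).le.trans h2) z
        ⟨h3, bot z h3, k⟩).2.1⟩
  obtain ⟨a₀, a1, -, a2⟩ := exists_rank hc (bot_le (a := z₀)) 1 (by omega) (by omega)
  obtain ⟨y₀, y1, y2, -⟩ := exists_rank hc (le_top (a := z₀)) 4 (by omega) (by omega)
  replace a2 : a₀ < z₀ := lt_of_le_of_ne a2 (by rintro rfl; omega)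
  replace y2 : z₀ < y₀ := lt_of_le_of_ne y2 (by rintro rfl; omega)
  obtain ⟨z₁, k1, k2⟩ := cnt_two_of (hA a₀ a1) ⟨hz, a2, top _ hz⟩
  obtain ⟨k3, k4, -⟩ := (k2 z₁).2 (Or.inr rfl)
  have k5 := (key a₀ y₀ z₁ a1 y1 (a2.trans y2) k3).1 k4
  refine ⟨z₁, k1, k3, fun a ha => ⟨fun h => (key a y₀ z₁ ha y1 (h.trans y2) k3).2 k5,
    fun h => (key a y₀ z₀ ha y1 (h.trans k5) hz).2 y2⟩,
    fun y hy => ⟨fun h => (key a₀ y z₁ a1 hy (a2.trans h) k3).1 k4,
    fun h => (key a₀ y z₀ a1 hy (k4.trans h) hz).1 a2⟩, ⟨a₀, a1, a2⟩, fun z a h3 ha h h' => ?_⟩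
  exact (k2 z).1 ⟨h3, (key a₀ y₀ z a1 y1 (a2.trans y2) h3).2
    ((key a y₀ z ha y1 (h.trans y2) h3).1 h'), top z h3⟩

end

theorem slice_nec {n u v N : ℕ} (hn : 5 ≤ n) (h : IsFlagVec n fun S => (vec u v N S : ℤ)) :
    ∃ p q s t : ℕ, 2 ≤ p ∧ 2 ≤ q ∧ 2 ≤ s ∧ 2 ≤ t ∧ p + q = 2 * u ∧ s + t = 2 * v ∧
      p * s + q * t = 4 * N := by
  classical
  obtain ⟨P, _, _, _, ρ, h0, h1, hc, he, hv⟩ := h
  let _ := Fintype.ofFinite P
  have hW : ∀ S : Finset ℕ, S ⊆ {1, 3, 4} → W ρ S ⊥ ⊤ = vec u v N S := by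
    intro S hS
    have h2 : S ⊆ Icc 1 n := fun s hs => by
      have := hS hs
      simp only [mem_insert, mem_singleton] at this
      rw [mem_Icc]; omega
    rw [← flag_eq_W hc h0 h1 S (fun k => by simpa using hS k), flag]
    have h3 := (hv S h2).symm
    simp only [Nat.cast_inj] at h3
    rw [h3]
  have sp : ∀ (S T : Finset ℕ) (k : ℕ), (∀ s ∈ S, s < k) → (∀ s ∈ T, k < s) →
      T ∪ insert k S ⊆ {1, 3, 4} → ∑ x, (if ρ x = k then W ρ S ⊥ x * W ρ T x ⊤ else 0) =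
        vec u v N (T ∪ insert k S) := fun S T k a b c => by rw [← W_split ρ S T k a b, hW _ c]
  have eb : ∀ (k : ℕ) (g : P → ℝ), 0 < k → ∑ x, (if ρ x = k then W ρ ∅ ⊥ x * g x else 0) =
      ∑ x, if ρ x = k then g x else 0 := fun k g hk => sum_congr rfl fun x _ => by
    split_ifs with a
    · rw [W_empty, if_pos (bot_lt_iff_ne_bot.2 (by rintro rfl; omega)), one_mul]
    · rfl
  have et : ∀ (k : ℕ) (g : P → ℝ), k ≤ 4 → ∑ x, (if ρ x = k then g x * W ρ ∅ x ⊤ else 0) =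
      ∑ x, if ρ x = k then g x else 0 := fun k g hk => sum_congr rfl fun x _ => by
    split_ifs with a
    · rw [W_empty, if_pos (lt_top_iff_ne_top.2 (by rintro rfl; omega)), mul_one]
    · rfl
  have one : ∀ k, 0 < k → k ≤ 4 → ∑ x, (if ρ x = k then W ρ ∅ ⊥ x * W ρ ∅ x ⊤ else 0) =
      ∑ x, if ρ x = k then (1 : ℝ) else 0 := fun k a b => by
    rw [eb k _ a, ← et k (fun _ => 1) b]; simp only [one_mul]
  have f1 := sp ∅ ∅ 1 (by simp) (by simp) (by decide)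
  have f3 := sp ∅ ∅ 3 (by simp) (by simp) (by decide)
  have f4 := sp ∅ ∅ 4 (by simp) (by simp) (by decide)
  have f13 := sp ∅ {3} 1 (by simp) (by simp) (by decide)
  have f31 := sp {1} ∅ 3 (by simp) (by simp) (by decide)
  have f34 := sp ∅ {4} 3 (by simp) (by simp) (by decide)
  have f43 := sp {3} ∅ 4 (by simp) (by simp) (by decide)
  have f134 := sp {1} {4} 3 (by simp) (by simp) (by decide)
  rw [one _ (by omega) (by omega)] at f1 f3 f4
  rw [eb _ _ (by omega)] at f13 f34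
  rw [et _ _ (by omega)] at f31 f43
  simp only [l0s_single] at f13 f31 f34 f43 f134
  have v1 : vec u v N (∅ ∪ insert 1 ∅) = 2 * u := by simp [vec, half]
  have v3 : vec u v N (∅ ∪ insert 3 ∅) = 4 := by simp [vec, half]
  have v4 : vec u v N (∅ ∪ insert 4 ∅) = 2 * v := by simp [vec, half]
  have v13 : vec u v N ({3} ∪ insert 1 ∅) = 4 * u := by simp [vec, half]
  have v31 : vec u v N (∅ ∪ insert 3 {1}) = 4 * u := by simp [vec, half]
  have v34 : vec u v N ({4} ∪ insert 3 ∅) = 4 * v := by simp [vec, half]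
  have v43 : vec u v N (∅ ∪ insert 4 {3}) = 4 * v := by simp [vec, half]
  have v134 : vec u v N ({4} ∪ insert 3 {1}) = 8 * N := by simp [vec, half]
  rw [v1] at f1; rw [v3] at f3; rw [v4] at f4; rw [v13] at f13; rw [v31] at f31
  rw [v34] at f34; rw [v43] at f43; rw [v134] at f134
  have hA : ∀ a, ρ a = 1 → cnt (fun z => ρ z = 3 ∧ a < z ∧ z < ⊤) = 2 := fun a ha => by
    exact_mod_cast l0s_two (p := fun x => ρ x = 1)
      (g := fun a => (cnt (fun z => ρ z = 3 ∧ a < z ∧ z < ⊤) : ℕ))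
      (fun a ha => by exact_mod_cast two_le hc he le_top (by omega) (by omega))
      (by rw [f13, f1]; push_cast; ring) ha
  have hY : ∀ y, ρ y = 4 → cnt (fun z => ρ z = 3 ∧ ⊥ < z ∧ z < y) = 2 := fun a ha => by
    exact_mod_cast l0s_two (p := fun x => ρ x = 4)
      (g := fun y => (cnt (fun z => ρ z = 3 ∧ ⊥ < z ∧ z < y) : ℕ))
      (fun a ha => by exact_mod_cast two_le hc he bot_le (by omega) (by omega))
      (by rw [f43, f4]; push_cast; ring) ha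
  have c4 : (univ.filter fun x => ρ x = 3).card = 4 := by
    rw [sum_boole] at f3; exact_mod_cast f3
  obtain ⟨z₀, hz₀⟩ := card_pos.1 (show 0 < (univ.filter fun x => ρ x = 3).card by omega)
  replace hz₀ := (mem_filter.1 hz₀).2
  obtain ⟨z₁, a1, a2, a3, a4, -, a5⟩ := partner hc he h0 (by omega) hA hY hz₀
  obtain ⟨z₂, hz₂, b0⟩ := exists_mem_notMem_of_card_lt_card (s := {z₀, z₁})
    (t := univ.filter fun x => ρ x = 3) (by rw [card_pair a1.symm]; omega)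
  replace hz₂ := (mem_filter.1 hz₂).2
  obtain ⟨z₃, b1, b2, b3, b4, ⟨a, ha, ha'⟩, -⟩ := partner hc he h0 (by omega) hA hY hz₂
  simp only [mem_insert, mem_singleton] at b0
  have b5 : z₃ ≠ z₀ := fun e => b0 (a5 z₂ a hz₂ ha (e ▸ (b3 a ha).1 ha') ha')
  have b6 : z₃ ≠ z₁ := fun e => b0 (a5 z₂ a hz₂ ha ((a3 a ha).2 (e ▸ (b3 a ha).1 ha')) ha')
  rw [not_or] at b0
  have n1 : z₀ ∉ ({z₁, z₂, z₃} : Finset P) := by simp [a1.symm, Ne.symm b0.1, b5.symm]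
  have n2 : z₁ ∉ ({z₂, z₃} : Finset P) := by simp [Ne.symm b0.2, b6.symm]
  have hF : ({z₀, z₁, z₂, z₃} : Finset P) = univ.filter fun x => ρ x = 3 :=
    eq_of_subset_of_card_le (fun x hx => by
      simp only [mem_insert, mem_singleton] at hx
      rcases hx with rfl | rfl | rfl | rfl <;> simp [*])
      (by rw [c4, card_insert_of_notMem n1, card_insert_of_notMem n2, card_pair b1.symm])
  rw [← sum_filter, ← hF, sum_insert n1, sum_insert n2, sum_pair b1.symm] at f31 f34 f134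
  have e1 : ∀ {z z' : P}, (∀ a, ρ a = 1 → (a < z ↔ a < z')) →
      cnt (fun x => ρ x = 1 ∧ ⊥ < x ∧ x < z') = cnt fun x => ρ x = 1 ∧ ⊥ < x ∧ x < z :=
    fun k => cnt_congr fun x => and_congr_right fun hx => by rw [k x hx]
  have e2 : ∀ {z z' : P}, (∀ a, ρ a = 4 → (z < a ↔ z' < a)) →
      cnt (fun x => ρ x = 4 ∧ z' < x ∧ x < ⊤) = cnt fun x => ρ x = 4 ∧ z < x ∧ x < ⊤ :=
    fun k => cnt_congr fun x => and_congr_right fun hx => by rw [k x hx]
  rw [e1 a3, e1 b3] at f31 f134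
  rw [e2 a4, e2 b4] at f34 f134
  norm_cast at f31 f34 f134
  exact ⟨_, _, _, _, two_le hc he (bot_le (a := z₀)) (k := 1) (by omega) (by omega),
    two_le hc he (bot_le (a := z₂)) (k := 1) (by omega) (by omega),
    two_le hc he (le_top (a := z₀)) (k := 4) (by omega) (by omega),
    two_le hc he (le_top (a := z₂)) (k := 4) (by omega) (by omega), by omega, by omega, by omega⟩

end Pool.Agent.Lib.MP_685082_co.DV
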