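import Pool.Agent.Lib.MP_685082_co.DV.Blow1
import Pool.Agent.Lib.MP_685082_co.DV.SliceN

/-! The posets of the slice. -/

namespace Pool.Agent.Lib.MP_685082_co.DV

open Finset Cone NX

/-- two sides that share the bottom, the top and one element below the top -/
inductive El (p q s t : ℕ)
  | bot
  | a (x : Fin (p + 1) ⊕ Fin (q + 1))
  | z (b : Bool)
  | u (b : Bool)
  | y (j : Fin s ⊕ Fin t)
  | w0
  | w (j : Fin s ⊕ Fin t)
  | top

namespace El
variable {p q s t : ℕ}

def rk : El p q s t → ℕ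
  | bot => 0 | a _ => 1 | z _ => 2 | u _ => 3 | y _ => 3 | w0 => 4 | w _ => 4 | top => 5

def rel : El p q s t → El p q s t → Prop
  | a x, z b => x.isLeft = b
  | a x, u b => x.isLeft = b
  | a x, y j => x.isLeft = j.isLeft
  | a x, w j => x.isLeft = j.isLeft
  | z b, u b' => b = b'
  | z b, y j => b = j.isLeft
  | z b, w j => b = j.isLeft
  | u _, w _ => False
  | y _, w0 => False
  | y j, w j' => j = j'
  | _, _ => True

instance : PartialOrder (El p q s t) where
  le x y := x = y ∨ (rk x < rk y ∧ rel x y)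
  le_refl _ := Or.inl rfl
  le_trans x y v h1 h2 := by
    rcases h1 with rfl | h1
    · exact h2
    rcases h2 with rfl | h2
    · exact Or.inr h1
    refine Or.inr ⟨h1.1.trans h2.1, ?_⟩
    cases x <;> cases y <;> simp only [rk, rel] at h1 <;> (try omega) <;>
      cases v <;> simp_all [rk, rel]
  le_antisymm x y h1 h2 := by
    rcases h1 with rfl | h1
    · rfl
    rcases h2 with rfl | h2
    · rfl
    have := h1.1; have := h2.1; omega

theorem le_def (x y : El p q s t) : x ≤ y ↔ x = y ∨ (rk x < rk y ∧ rel x y) :=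
  ⟨fun h => h, fun h => h⟩

theorem lt_def (x y : El p q s t) : x < y ↔ rk x < rk y ∧ rel x y := by
  rw [lt_iff_le_and_ne, le_def]
  exact ⟨fun h => h.1.resolve_left h.2, fun h => ⟨Or.inr h, by rintro rfl; exact lt_irrefl _ h.1⟩⟩

instance : BoundedOrder (El p q s t) where
  top := top
  bot := bot
  le_top x := by cases x <;> simp [le_def, rk, rel]
  bot_le x := by cases x <;> simp [le_def, rk, rel]

def eqv : Unit ⊕ (Fin (p + 1) ⊕ Fin (q + 1)) ⊕ Bool ⊕ Bool ⊕ (Fin s ⊕ Fin t) ⊕ Unit ⊕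
    (Fin s ⊕ Fin t) ⊕ Unit ≃ El p q s t where
  toFun := Sum.elim (fun _ => bot) (Sum.elim a (Sum.elim z (Sum.elim u (Sum.elim y
    (Sum.elim (fun _ => w0) (Sum.elim w fun _ => top))))))
  invFun
    | bot => .inl ()
    | a x => .inr (.inl x)
    | z b => .inr (.inr (.inl b))
    | u b => .inr (.inr (.inr (.inl b)))
    | y j => .inr (.inr (.inr (.inr (.inl j))))
    | w0 => .inr (.inr (.inr (.inr (.inr (.inl ())))))
    | w j => .inr (.inr (.inr (.inr (.inr (.inr (.inl j))))))
    | top => .inr (.inr (.inr (.inr (.inr (.inr (.inr ()))))))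
  left_inv := by rintro (_ | _ | _ | _ | _ | _ | _ | _) <;> rfl
  right_inv x := by cases x <;> rfl

instance : Fintype (El p q s t) := Fintype.ofEquiv _ eqv

theorem sum_eq {M : Type} [AddCommMonoid M] (f : El p q s t → M) : ∑ x, f x =
    f bot + (∑ x, f (a x) + (∑ x, f (z x) + (∑ x, f (u x) + (∑ x, f (y x) + (f w0 +
      (∑ x, f (w x) + f top)))))) := by
  rw [← eqv.sum_comp]
  simp only [Fintype.sum_sum_type _ (α₁ := Unit), Fintype.sum_sum_type _ (α₁ := Bool),
    Fintype.sum_sum_type _ (α₁ := Fin (p + 1) ⊕ Fin (q + 1)),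
    Fintype.sum_sum_type _ (α₁ := Fin s ⊕ Fin t), Fintype.sum_unique]
  rfl

def nxt : El p q s t → El p q s t → El p q s t
  | bot, z b => a (bif b then .inl 0 else .inr 0)
  | bot, u b => z b
  | bot, y j => z j.isLeft
  | bot, w j => z j.isLeft
  | bot, _ => z true
  | a x, _ => z x.isLeft
  | z _, w j => y j
  | z b, _ => u b
  | y j, _ => w j
  | _, _ => w0

theorem cov (x y : El p q s t) (h : x ⋖ y) : rk y = rk x + 1 := by
  by_contra hn
  have h1 := (lt_def _ _).1 h.lt
  have h2 : rk x + 2 ≤ rk y := by omega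
  refine h.2 (c := nxt x y) ?_ ?_ <;> rw [lt_def] <;> clear h hn <;>
    cases x <;> cases y <;> simp_all [rk, rel, nxt]
  rename_i b
  cases b <;> rfl

open Classical in
theorem W1 (v : El p q s t) : W rk {1} bot v = ∑ x, if a x < v then 1 else 0 := by
  rw [W_single, sum_eq]; simp [rk, lt_def bot, rel]

open Classical in
theorem W2 (S : Finset ℕ) (h : ∀ k ∈ S, k < 2) (v : El p q s t) :
    W rk (insert 2 S) bot v = ∑ b, if z b < v then W rk S bot (z b : El p q s t) else 0 := by
  rw [W_insert _ _ _ h, sum_eq]; simp [rk]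

open Classical in
theorem W3 (S : Finset ℕ) (h : ∀ k ∈ S, k < 3) (v : El p q s t) :
    W rk (insert 3 S) bot v = (∑ b, if u b < v then W rk S bot (u b : El p q s t) else 0) +
      ∑ j, if y j < v then W rk S bot (y j : El p q s t) else 0 := by
  rw [W_insert _ _ _ h, sum_eq]; simp [rk]

theorem W4 (S : Finset ℕ) (h : ∀ k ∈ S, k < 4) :
    W rk (insert 4 S) bot (top : El p q s t) = W rk S bot (w0 : El p q s t) +
      ∑ j, W rk S bot (w j : El p q s t) := by
  rw [W_insert _ _ _ h, sum_eq]; simp [rk, lt_def, rel]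

theorem flags (T : Finset ℕ) (hT : T ⊆ {4, 3, 2, 1}) : W rk T (bot : El p q s t) top =
    (if 1 ∈ T then (if 3 ∈ T ∨ 4 ∈ T then (p + 1) * (s + 1) + (q + 1) * (t + 1) else p + 1 + (q + 1))
    else if 3 ∈ T ∨ (2 ∈ T ∧ 4 ∈ T) then s + 1 + (t + 1) else if 4 ∈ T then s + t + 1
    else if 2 ∈ T then 2 else 1 : ℕ) := by
  rw [← mem_powerset, show powerset ({4, 3, 2, 1} : Finset ℕ) = {∅, {1}, insert 2 ∅, {2, 1},
    insert 3 ∅, {3, 1}, insert 3 (insert 2 ∅), {3, 2, 1}, insert 4 ∅, {4, 1},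
    insert 4 (insert 2 ∅), {4, 2, 1}, insert 4 (insert 3 ∅), {4, 3, 1},
    insert 4 (insert 3 (insert 2 ∅)), {4, 3, 2, 1}} by decide] at hT
  simp only [mem_insert, mem_singleton] at hT
  rcases hT with rfl | rfl | rfl | rfl | rfl | rfl | rfl | rfl | rfl | rfl | rfl | rfl | rfl |
    rfl | rfl | rfl <;>
  simp (disch := decide) only [W1, W2, W3, W4, W_empty, lt_def, rk, rel, Fintype.sum_sum_type,
    Fintype.sum_bool] <;>
  simp <;> ring

open Classical in
theorem c2 (x v : El p q s t) : cB rk 2 x v = ∑ b, if x ≤ z b ∧ z b ≤ v then 1 else 0 := by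
  rw [cB, sum_eq]; simp [rk]

open Classical in
theorem c3 (x v : El p q s t) : cB rk 3 x v = (∑ b, if x ≤ u b ∧ u b ≤ v then 1 else 0) +
    ∑ j, if x ≤ y j ∧ y j ≤ v then 1 else 0 := by
  rw [cB, sum_eq]; simp [rk]

open Classical in
theorem c4 (x v : El p q s t) : cB rk 4 x v = (if x ≤ w0 ∧ w0 ≤ v then 1 else 0) +
    ∑ j, if x ≤ w j ∧ w j ≤ v then 1 else 0 := by
  rw [cB, sum_eq]; simp [rk]

theorem cnts (x v : El p q s t) (h : x ≤ v) :
    (rk x ≤ 1 → (rk v = 5 → cB rk 2 x v + cB rk 4 x v = cB rk 3 x v + 1) ∧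
      (rk v = 4 → cB rk 2 x v = cB rk 3 x v) ∧ (rk v = 3 → cB rk 2 x v = 1)) ∧
    (rk x = 2 → (rk v = 5 → cB rk 3 x v = cB rk 4 x v) ∧ (rk v = 4 → cB rk 3 x v = 1)) ∧
    (rk x = 3 → rk v = 5 → cB rk 4 x v = 1) := by
  classical
  rw [c2, c3, c4]
  simp only [Fintype.sum_sum_type, Fintype.sum_bool, le_def] at h ⊢
  rcases x with _ | (_ | _) | (_ | _) | (_ | _) | (_ | _) | _ | (_ | _) | _ <;>
  rcases v with _ | (_ | _) | (_ | _) | (_ | _) | (_ | _) | _ | (_ | _) | _ <;>
  simp [rk, rel] at h <;> (try subst h) <;> simp [rk, rel] <;> (try ring1)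

end El

theorem slice_suf {n : ℕ} (hn : 5 ≤ n) (p q s t : ℕ) : IsFlagVec n fun S =>
    (vec (p + 1 + (q + 1)) (s + 1 + (t + 1)) ((p + 1) * (s + 1) + (q + 1) * (t + 1)) S : ℤ) := by
  refine blow1 (ρ := El.rk (p := p) (q := q) (s := s) (t := t)) El.cov 4 n rfl rfl
    (fun k => if k ≤ 1 then k else min (k - 1) 5) rfl (by rw [if_neg (by omega)]; omega) rfl
    (fun k => by split_ifs <;> omega) (fun k => if k = 0 ∨ k = n + 1 then 1 else 2)
    (fun k => by split_ifs <;> omega) (by simp) (by simp) (fun x y a b hxy hab hb hx hy => ?_) _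
    fun S hS => ?_
  · have h1 := alt_ends hab
    have l := cB_left El.cov hxy
    have r := cB_right El.cov hxy
    have h2 : ∑ k ∈ Ioo a b, (-1) ^ k * ((if k = 0 ∨ k = n + 1 then 1 else 2 : ℕ) *
        cB El.rk (if k ≤ 1 then k else min (k - 1) 5) x y) = ∑ k ∈ Ioo a b, (-1) ^ k * 2 +
        2 * ∑ k ∈ range 6, if a < k ∧ k < b then
          (-1) ^ k * (cB El.rk (if k ≤ 1 then k else min (k - 1) 5) x y - 1) else 0 := by
      rw [← sum_filter, sum_subset (s₁ := filter _ (range 6)) (s₂ := Ioo a b)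
        (fun k hk => by simp at hk ⊢; omega), mul_sum, ← sum_add_distrib]
      · refine sum_congr rfl fun k hk => ?_
        rw [mem_Ioo] at hk
        rw [if_neg (by omega)]
        push_cast; ring
      · intro k hk hk'
        simp only [mem_Ioo, mem_filter, mem_range] at hk hk'
        rw [if_neg (by omega), show min (k - 1) 5 = El.rk y by rw [hy, if_neg (by omega)]; omega, r]
        simp
    rw [h2, ← add_assoc, h1, zero_add, mul_eq_zero]
    right
    obtain ⟨k1, k2, k3⟩ := El.cnts x y hxy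
    rw [hx] at l k1 k2 k3
    rw [hy] at r k1 k2 k3
    simp only [sum_range_succ, sum_range_zero]
    rcases (by omega : a = 0 ∨ a = 1 ∨ a = 2 ∨ a = 3 ∨ a = 4 ∨ 5 ≤ a) with
      rfl | rfl | rfl | rfl | rfl | ha
    rotate_right
    · simp [show ¬ a < 0 by omega, show ¬ a < 1 by omega, show ¬ a < 2 by omega,
        show ¬ a < 3 by omega, show ¬ a < 4 by omega, show ¬ a < 5 by omega]
    all_goals
      rcases (by omega : b = 1 ∨ b = 2 ∨ b = 3 ∨ b = 4 ∨ b = 5 ∨ 6 ≤ b) with
        rfl | rfl | rfl | rfl | rfl | hb'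
      rotate_right
      · rw [if_neg (show ¬ b ≤ 1 by omega), show min (b - 1) 5 = 5 by omega] at k1 k2 k3
        simp [show 1 < b by omega, show 2 < b by omega, show 3 < b by omega,
          show 4 < b by omega, show 5 < b by omega] at l k1 k2 k3 ⊢
        linarith
      all_goals
        simp at l r k1 k2 k3 hab ⊢
        all_goals linarith
  · have hS' : ∀ k ∈ S, 1 ≤ k ∧ k ≤ n := fun k hk => mem_Icc.1 (hS hk)
    have hm : ∀ j, j ≠ 5 → (j ∈ (S.image fun k => if k ≤ 1 then k else min (k - 1) 5).erase (4 + 1)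
        ↔ (j = 1 ∧ 1 ∈ S) ∨ (j < 5 ∧ 1 ≤ j ∧ j + 1 ∈ S)) := fun j hj => by
      simp only [mem_erase, mem_image]
      constructor
      · rintro ⟨-, k, hk, rfl⟩
        have := hS' k hk
        split_ifs at hj ⊢
        · left; obtain rfl : k = 1 := by omega
          exact ⟨rfl, hk⟩
        · right; rw [show min (k - 1) 5 + 1 = k by omega]; exact ⟨by omega, by omega, hk⟩
      · rintro (⟨rfl, h⟩ | ⟨h1, h2, h⟩)
        exacts [⟨hj, 1, h, rfl⟩, ⟨hj, j + 1, h, by rw [if_neg (by omega)]; omega⟩]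
    rw [prod_congr rfl (g := fun _ => (2 : ℝ)) (fun k hk => by
      have := hS' k hk
      rw [if_neg (by omega)]; rfl), prod_const]
    change _ = _ * W El.rk _ El.bot El.top
    rw [El.flags _ (fun j hj => by
      have h5 := (mem_erase.1 hj).1
      have := (hm j h5).1 hj
      simp only [mem_insert, mem_singleton]; omega)]
    simp only [vec, half, hm 1 (by omega), hm 2 (by omega), hm 3 (by omega), hm 4 (by omega),
      show s + 1 + (t + 1) - 1 = s + t + 1 by omega]
    norm_num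

end Pool.Agent.Lib.MP_685082_co.DV
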