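import Pool.Agent.Lib.Complexity.CookLevin

/-! Subset sum is hard with weights that depend on the length of the input only. -/

namespace Pool.Agent.Lib.MP_685082_co.DV

open Finset Pool.Agent.Lib.Complexity N68a2faeb

/-- the number with the given digits in base six -/
def ssNum (l : List ℕ) : ℕ := l.foldr (fun h s => h + 6 * s) 0

theorem ssNum_lt (l : List ℕ) : ssNum l < 2 ^ (3 * sz l) := by
  induction l with
  | nil => simp [ssNum]
  | cons h l ih =>
    have h1 : h < 2 ^ (3 * h) := Nat.lt_two_pow_self.trans_le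
      (Nat.pow_le_pow_right (by omega) (by omega))
    have h2 : 0 < 2 ^ (3 * sz l) := by positivity
    have e : 2 ^ (3 * sz (h :: l)) = 8 * (2 ^ (3 * h) * 2 ^ (3 * sz l)) := by
      rw [sz_cons, sz_nat]; ring
    have h3 := Nat.le_mul_of_pos_right (2 ^ (3 * h)) h2
    have h4 := Nat.le_mul_of_pos_left (2 ^ (3 * sz l)) (show 0 < 2 ^ (3 * h) by omega)
    change h + 6 * ssNum l < _
    omega

theorem ssNum_pt {α : Type} [Enc α] {l : α → List ℕ} (hl : PT l) : PTB fun a => ssNum (l a) :=
  PTB.foldr (F := fun _ h s => h + 6 * s) hl (PTB.const 0)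
    ((PTB.of_unary (by fun_prop)).add ((PTB.const 6).mul (PT.bval (by fun_prop))))
    (B := fun a => 3 * sz (l a)) (PT.pb_nat (by fun_prop)) fun a i =>
      (ssNum_lt _).trans_le (Nat.pow_le_pow_right (by omega)
        (Nat.mul_le_mul_left _ (sz_le_of_sublist (List.drop_sublist _ _))))

theorem ssNum_inj (l l' : List ℕ) (h : l.length = l'.length) (h1 : ∀ y ∈ l, y < 6)
    (h2 : ∀ y ∈ l', y < 6) (e : ssNum l = ssNum l') : l = l' := by
  induction l generalizing l' with
  | nil => exact (List.length_eq_zero_iff.1 h.symm).symm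
  | cons a l ih =>
    cases l' with
    | nil => simp at h
    | cons b l' =>
      have ha := h1 a (by simp)
      have hb := h2 b (by simp)
      change a + 6 * ssNum l = b + 6 * ssNum l' at e
      rw [show a = b by omega, ih l' (by simpa using h) (fun y hy => h1 y (by simp [hy]))
        (fun y hy => h2 y (by simp [hy])) (by omega)]

theorem ss_count (I : Finset ℕ) (l : List ℕ) :
    ∑ r ∈ I, l.countP (fun y => decide (y = r)) = l.countP fun y => decide (y ∈ I) := by
  induction l with
  | nil => simp
  | cons a l ih => simp [List.countP_cons, Finset.sum_add_distrib, ih]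

theorem ss_sum (I : Finset ℕ) (rows : List (List ℕ)) :
    ∑ r ∈ I, ssNum (rows.map fun l => l.countP fun y => decide (y = r))
      = ssNum (rows.map fun l => l.countP fun y => decide (y ∈ I)) := by
  induction rows with
  | nil => simp [ssNum]
  | cons l rows ih =>
    change ∑ r ∈ I, (l.countP (fun y => decide (y = r)) + 6 * ssNum _) = _ + 6 * ssNum _
    rw [Finset.sum_add_distrib, ← Finset.mul_sum, ih, ss_count]

theorem ss_gen (rows : List (List ℕ)) (tg : List ℕ) (h5 : ∀ l ∈ rows, l.length < 6)
    (ht : ∀ y ∈ tg, y < 6) (hl : rows.length = tg.length) :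
    (∃ S : ℕ → Bool, rows.map (List.countP S) = tg) ↔ ∃ I ⊆ range (rows.flatten.sum + 1),
      ∑ r ∈ I, ssNum (rows.map fun l => l.countP fun y => decide (y = r)) = ssNum tg := by
  constructor
  · rintro ⟨S, rfl⟩
    refine ⟨(range _).filter fun r => S r = true, Finset.filter_subset _ _, ?_⟩
    rw [ss_sum]
    congr 1
    refine List.map_congr_left fun l hl => List.countP_congr fun y hy => ?_
    have := List.le_sum_of_mem (List.mem_flatten.2 ⟨l, hl, hy⟩)
    simp only [decide_eq_true_eq, Finset.mem_filter, Finset.mem_range, Nat.lt_succ_of_le this,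
      true_and]
  · rintro ⟨I, -, h⟩
    rw [ss_sum] at h
    refine ⟨_, ssNum_inj _ _ (by simpa using hl) (fun y hy => ?_) ht h⟩
    obtain ⟨l, hl, rfl⟩ := List.mem_map.1 hy
    exact List.countP_le_length.trans_lt (h5 l hl)

/-- the items that occur in each equation -/
def ssRows (N m : ℕ) (φ : CNF) : List (List ℕ) :=
  (List.range N).map (fun i => [2 * i, 2 * i + 1]) ++ ((List.range m).map (fun i => [2 * i + 1]) ++
    φ.zipIdx.map fun c => 2 * (N + c.2) :: (2 * (N + c.2) + 1) ::
      c.1.map fun l => 2 * l.1 + bif l.2 then 1 else 0)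

/-- the right hand sides -/
def ssTg (N : ℕ) (x : Str) (φ : CNF) : List ℕ :=
  (List.range N).map (fun _ => 1) ++ ((List.range x.length).map
    (fun i => bif x.getD i false then 1 else 0) ++ φ.zipIdx.map fun _ => 3)

theorem ss_iff (N : ℕ) (x : Str) (φ : CNF) (S : ℕ → Bool) :
    (ssRows N x.length φ).map (List.countP S) = ssTg N x φ ↔
      (∀ i < N, [2 * i, 2 * i + 1].countP S = 1) ∧
      (∀ i < x.length, S (2 * i + 1) = x.getD i false) ∧
      ∀ c j, φ[j]? = some c → [2 * (N + j), 2 * (N + j) + 1].countP S +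
        c.countP (fun l => S (2 * l.1 + bif l.2 then 1 else 0)) = 3 := by
  have e : ∀ {a b c d : List ℕ}, a.length = c.length → (a ++ b = c ++ d ↔ a = c ∧ b = d) :=
    fun h => ⟨fun e => List.append_inj e h, fun e => by rw [e.1, e.2]⟩
  rw [ssRows, ssTg, List.map_append, List.map_append, e (by simp), e (by simp), List.map_map,
    List.map_map, List.map_map, List.map_inj_left, List.map_inj_left, List.map_inj_left]
  refine and_congr (by simp only [List.mem_range, Function.comp_apply])
    (and_congr (forall_congr' fun i => ?_) ?_)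
  · simp only [List.mem_range, Function.comp_apply, List.countP_singleton]
    cases S (2 * i + 1) <;> cases x.getD i false <;> simp
  · simp only [Prod.forall, List.mem_zipIdx_iff_getElem?, Function.comp_apply]
    refine forall_congr' fun c => forall_congr' fun j => imp_congr Iff.rfl ?_
    simp only [List.countP_cons, List.countP_map, List.countP_nil, Function.comp_def]
    omega

theorem ss_sat (N : ℕ) (x : Str) (φ : CNF) (h3 : ∀ c ∈ φ, c.length = 3)
    (hN : φ.top + x.length ≤ N) :
    (∃ v : ℕ → Bool, (∀ i < x.length, x[i]? = some (v i)) ∧ φ.Sat v) ↔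
      ∃ S : ℕ → Bool, (ssRows N x.length φ).map (List.countP S) = ssTg N x φ := by
  simp only [ss_iff]
  constructor
  · rintro ⟨v, h1, h2⟩
    obtain ⟨S, hS, hS'⟩ : ∃ S : ℕ → Bool, (∀ i < N, S (2 * i) = !v i ∧ S (2 * i + 1) = v i) ∧
        ∀ j b, b < 2 → S (2 * (N + j) + b) =
          decide (b + (φ.getD j []).countP (fun l => decide (v l.1 = l.2)) < 3) := by
      refine ⟨fun r => if r < 2 * N then (if r % 2 = 1 then v (r / 2) else !v (r / 2)) else
        decide (r % 2 + (φ.getD (r / 2 - N) []).countP (fun l => decide (v l.1 = l.2)) < 3),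
        fun i hi => ⟨?_, ?_⟩, fun j b hb => ?_⟩
      · beta_reduce
        rw [if_pos (by omega), if_neg (by omega), show 2 * i / 2 = i by omega]
      · beta_reduce
        rw [if_pos (by omega), if_pos (by omega), show (2 * i + 1) / 2 = i by omega]
      · beta_reduce
        rw [if_neg (by omega), show (2 * (N + j) + b) % 2 = b by omega,
          show (2 * (N + j) + b) / 2 - N = j by omega]
    refine ⟨S, fun i hi => ?_, fun i hi => ?_, fun c j hc => ?_⟩
    · simp only [List.countP_cons, (hS i hi).1, (hS i hi).2]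
      cases v i <;> simp
    · rw [(hS i (by omega)).2, List.getD_eq_getElem?_getD, h1 i hi]
      rfl
    · have hm : c ∈ φ := List.mem_of_getElem? hc
      have e1 : c.countP (fun l => S (2 * l.1 + bif l.2 then 1 else 0))
          = c.countP fun l => decide (v l.1 = l.2) := List.countP_congr fun l hl => by
        have := hS l.1 (by have := CNF.lt_top hm hl; omega)
        cases hl2 : l.2 <;> simp [this.1, this.2]
      have e2 := hS' j 0 (by omega)
      have e3 := hS' j 1 (by omega)
      rw [List.getD_eq_getElem?_getD, hc, Option.getD_some] at e2 e3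
      have h4 : 0 < c.countP fun l => decide (v l.1 = l.2) :=
        List.countP_pos_iff.2 (by simpa using h2 c hm)
      have h5 := (List.countP_le_length (p := fun l : ℕ × Bool => decide (v l.1 = l.2))
        (l := c)).trans_eq (h3 c hm)
      rw [add_zero] at e2
      simp only [List.countP_cons, List.countP_nil, e1, e2, e3, decide_eq_true_eq]
      split_ifs <;> omega
  · rintro ⟨S, h1, h2, h4⟩
    refine ⟨fun i => S (2 * i + 1), fun i hi => ?_, fun c hc => ?_⟩
    · beta_reduce
      rw [h2 i hi]
      simp [hi]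
    · obtain ⟨j, hj⟩ := List.getElem?_of_mem hc
      have h5 := h4 c j hj
      have h6 := List.countP_le_length (p := S) (l := [2 * (N + j), 2 * (N + j) + 1])
      obtain ⟨l, hl, h7⟩ := (List.countP_pos_iff (l := c)
        (p := fun l => S (2 * l.1 + bif l.2 then 1 else 0))).1 (by simp at h6; omega)
      refine ⟨l, hl, ?_⟩
      have h8 := h1 l.1 (by have := CNF.lt_top hc hl; omega)
      cases hl2 : l.2
      · simp only [hl2, cond_false, add_zero] at h7
        simpa [List.countP_cons, h7] using h8
      · simpa [hl2] using h7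

theorem ss_np {L : DecisionProblem} (hL : L ∈ NP) : ∃ φ : ℕ → CNF, PT φ ∧
    (∀ m, ∀ c ∈ φ m, c.length = 3) ∧ ∀ x : Str, L x = true ↔
      ∃ v : ℕ → Bool, (∀ i < x.length, x[i]? = some (v i)) ∧ (φ x.length).Sat v := by
  obtain ⟨p, R, hR, h⟩ := np_exact hL
  obtain ⟨ψ, hψ, h3, e⟩ := cook_levin_pt3
    (R := fun q : ℕ × Str => R (q.2.take q.1, q.2.drop q.1)) (hR.comp (by fun_prop))
  refine ⟨fun m => ψ (m, m + p.eval m), hψ.comp (PT.prodMk PT.id
    (PT.add PT.id (PT.poly_eval PT.id p))), fun m => h3 _, fun x => ?_⟩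
  rw [h]
  constructor
  · rintro ⟨w, hw, hR⟩
    obtain ⟨v, h1, h2⟩ := (e x.length (x ++ w)).1 (by simpa using hR)
    rw [List.length_append, hw] at h1 h2
    exact ⟨v, fun i hi => by rw [← h1 i (by omega), List.getElem?_append_left hi], h2⟩
  · rintro ⟨v, h1, h2⟩
    have h4 := (e x.length ((List.range (x.length + p.eval x.length)).map v)).2
      ⟨v, fun i hi => by
        simp only [List.length_map, List.length_range] at hi
        simp [hi], by simpa using h2⟩
    have h5 : ((List.range (x.length + p.eval x.length)).map v).take x.length = x := by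
      refine List.ext_getElem? fun i => ?_
      by_cases hi : i < x.length
      · rw [h1 i hi, List.getElem?_take_of_lt hi]
        simp [show i < x.length + p.eval x.length by omega]
      · rw [List.getElem?_eq_none (by simp; omega), List.getElem?_eq_none (by omega)]
    simp only [h5] at h4
    exact ⟨_, by simp, h4⟩

theorem univ_subset_sum {L : DecisionProblem} (hL : L ∈ NP) :
    ∃ (k : ℕ → ℕ) (a : ℕ × ℕ → ℕ) (t : Str → ℕ), PT k ∧ PTB a ∧ PTB t ∧
      ∀ x, L x = true ↔ ∃ I ⊆ range (k x.length + 1), ∑ r ∈ I, a (x.length, r) = t x := by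
  obtain ⟨φ, hφ, h3, e⟩ := ss_np hL
  have hN : PT fun m => (φ m).top + m := (pt_top.comp hφ).add PT.id
  obtain ⟨N, hN'⟩ : ∃ N : ℕ → ℕ, N = fun m => (φ m).top + m := ⟨_, rfl⟩
  rw [← hN'] at hN
  have hr : PT fun m => ssRows (N m) m (φ m) := by
    unfold ssRows
    fun_prop
  obtain ⟨ρ, hρ⟩ : ∃ ρ : ℕ → List (List ℕ), ρ = fun m => ssRows (N m) m (φ m) := ⟨_, rfl⟩
  rw [← hρ] at hr
  refine ⟨fun m => (ρ m).flatten.sum,
    fun q => ssNum ((ρ q.1).map fun l => l.countP fun y => decide (y = q.2)),
    fun x => ssNum (ssTg (N x.length) x (φ x.length)), by fun_prop, ssNum_pt (by fun_prop),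
    ssNum_pt (by unfold ssTg; fun_prop), fun x => ?_⟩
  rw [e, ss_sat (N x.length) x _ (h3 _) (by rw [hN']), hρ]
  refine ss_gen _ _ (fun l hl => ?_) (fun y hy => ?_) (by simp [ssRows, ssTg])
  · simp only [ssRows, List.mem_append, List.mem_map] at hl
    rcases hl with ⟨i, -, rfl⟩ | ⟨i, -, rfl⟩ | ⟨c, hc, rfl⟩
    · simp
    · simp
    · simp [h3 _ c.1 (List.fst_mem_of_mem_zipIdx hc)]
  · simp only [ssTg, List.mem_append, List.mem_map] at hy
    rcases hy with ⟨i, -, rfl⟩ | ⟨i, -, rfl⟩ | ⟨c, -, rfl⟩
    · simp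
    · cases x.getD i false <;> simp
    · simp

end Pool.Agent.Lib.MP_685082_co.DV
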