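import Pool.Agent.Lib.MP_685082_co.DV.Defs
import Pool.Agent.Lib.MP_685082_co.DV.SliceS
import Pool.Agent.Lib.MP_685082_co.DV.Arith
import Pool.Agent.Lib.MP_685082_co.DV.Exist
import Pool.Agent.Lib.MP_685082_co.DV.Pratt
import Pool.Agent.Lib.MP_685082_co.DV.Sub
import Pool.Agent.Lib.MP_685082_co.NX.Main

/-! Hardness in every rank from six on. -/

namespace Pool.Agent.Lib.MP_685082_co.DV

open Finset NX Pool.Agent.Lib.Complexity N68a2faeb N487b59b3

/-- the vector that asks for a factorization `M = d * e` with `d < A` and `e < B` -/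
def dvec (M A B : ℕ) (S : Finset ℕ) : ℕ :=
  vec (2 * (A / 2) + 1) (2 * (B / 2) + 1) ((M + (2 * (A / 2) + 1) * (2 * (B / 2) + 1)) / 2) S

theorem slice_div {n M A B : ℕ} (hn : 5 ≤ n) (hM : Odd M) :
    (IsFlagVec n fun S => (dvec M A B S : ℤ)) ↔ ∃ d e, d * e = M ∧ d < A ∧ e < B := by
  have h2 : 2 * ((M + (2 * (A / 2) + 1) * (2 * (B / 2) + 1)) / 2) =
      M + (2 * (A / 2) + 1) * (2 * (B / 2) + 1) :=
    Nat.two_mul_div_two_of_even (hM.add_odd ((odd_two_mul_add_one _).mul (odd_two_mul_add_one _)))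
  unfold dvec
  generalize (M + (2 * (A / 2) + 1) * (2 * (B / 2) + 1)) / 2 = N at h2
  constructor
  · intro h
    obtain ⟨p, q, s, t, k1, k2, k3, k4, k5, k6, k7⟩ := slice_nec hn h
    refine ⟨((p : ℤ) - (2 * (A / 2) + 1 : ℕ)).natAbs, ((s : ℤ) - (2 * (B / 2) + 1 : ℕ)).natAbs, ?_,
      by omega, by omega⟩
    generalize 2 * (A / 2) + 1 = u at *
    generalize 2 * (B / 2) + 1 = v at *
    rw [← Int.natAbs_mul, ← Int.natAbs_natCast M]
    congr 1
    zify at h2 k5 k6 k7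
    have e1 : (q : ℤ) = 2 * u - p := by linarith
    have e2 : (t : ℤ) = 2 * v - s := by linarith
    rw [e1, e2] at k7
    linarith
  · rintro ⟨d, e, rfl, k1, k2⟩
    obtain ⟨⟨d, rfl⟩, ⟨e, rfl⟩⟩ := Nat.odd_mul.1 hM
    obtain ⟨i, hi⟩ : ∃ i, A / 2 = d + 1 + i := ⟨A / 2 - (d + 1), by omega⟩
    obtain ⟨j, hj⟩ : ∃ j, B / 2 = e + 1 + j := ⟨B / 2 - (e + 1), by omega⟩
    rw [hi, hj] at h2 ⊢
    have := slice_suf hn (2 * d + 1 + i) i (2 * e + 1 + j) j
    rwa [show 2 * d + 1 + i + 1 + (i + 1) = 2 * (d + 1 + i) + 1 by ring,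
      show 2 * e + 1 + j + 1 + (j + 1) = 2 * (e + 1 + j) + 1 by ring,
      show (2 * d + 1 + i + 1) * (2 * e + 1 + j + 1) + (i + 1) * (j + 1) = N by nlinarith] at this

section pt
variable {α : Type} [Enc α]

theorem ptb_sumr {n : α → ℕ} {F : α × ℕ → ℕ} (hn : PT n) (hF : PTB F) :
    PTB fun a => ∑ r ∈ range (n a), F (a, r) := by
  refine PT.bin_of_int ((PT.int_sum (PT.map (f := fun a r => (F (a, r) : ℤ)) hn.range
    (PT.int_of_bin hF))).of_eq fun a => ?_)
  induction n a with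
  | zero => simp
  | succ k ih => rw [List.range_succ, List.map_append, List.sum_append, ih, sum_range_succ]; simp

theorem ptb_prodr {n : α → ℕ} {F : α × ℕ → ℕ} (hn : PT n) (hF : PTB F) :
    PTB fun a => ∏ r ∈ range (n a), F (a, r) := by
  refine PT.bin_of_int ((ptt_prod_pt (PT.map (f := fun a r => (F (a, r) : ℤ)) hn.range
    (PT.int_of_bin hF))).of_eq fun a => ?_)
  induction n a with
  | zero => simp
  | succ k ih => rw [List.range_succ, List.map_append, List.prod_append, ih, prod_range_succ]; simp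

theorem ptb_dvec {M A B : α → ℕ} (hM : PTB M) (hA : PTB A) (hB : PTB B) (S : Finset ℕ) :
    PTB fun a => dvec (M a) (A a) (B a) S := by
  have hu := ((PTB.const 2).mul hA.div2).add (PTB.const 1)
  have hv := ((PTB.const 2).mul hB.div2).add (PTB.const 1)
  exact (PTB.const _).mul (ptb_if _ (ptb_if _ (hM.add (hu.mul hv)).div2 hu) (ptb_if _ hv
    (ptb_if _ (hv.sub (PTB.const 1)) (PTB.const _))))

end pt

/-- hints: `X`, `τ`, `c` and, for every item, `p`, `g` and two certificates -/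
abbrev Hint := ℤ × ℤ × ℤ × List (ℤ × ℤ × T × T)

def Hint.it (w : Hint) (r : ℕ) : ℤ × ℤ × T × T := w.2.2.2.getD r (0, 0, .nil, .nil)
def Hint.X (w : Hint) : ℕ := w.1.toNat
def Hint.τ (w : Hint) : ℕ := w.2.1.toNat
def Hint.c (w : Hint) : ℕ := w.2.2.1.toNat
def Hint.p (w : Hint) (r : ℕ) : ℕ := (w.it r).1.toNat
def Hint.g (w : Hint) (r : ℕ) : ℕ := (w.it r).2.1.toNat

/-- the test of a hint -/
def test (chk : ℤ × T → Bool) (K : ℕ) (a : ℕ → ℕ) (w : Hint) : Bool :=
  decide (2 < w.X) && decide (0 < w.τ) &&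
    decide ((∑ r ∈ range K, (2 * (w.p r - w.X) + w.τ * a r)) ^ 2 < w.X) &&
    (List.range K).all fun r => chk (w.p r, (w.it r).2.2.1) &&
      chk ((w.p r + w.τ * a r : ℕ), (w.it r).2.2.2) && decide (w.X ≤ w.p r) &&
      decide (w.τ % w.g r = 0) && !decide (w.p r % w.g r = w.c % w.g r) &&
      (List.range r).all fun r' => decide (w.p r % w.g r' = w.c % w.g r')

theorem test_iff {chk : ℤ × T → Bool} {K : ℕ} {a : ℕ → ℕ} {w : Hint}
    (h : ∀ (p : ℕ) (w : T), chk (p, w) = true → p.Prime) : test chk K a w = true ↔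
      Good K a w.X w.τ w.c w.p w.g ∧ ∀ r < K, chk (w.p r, (w.it r).2.2.1) = true ∧
        chk ((w.p r + w.τ * a r : ℕ), (w.it r).2.2.2) = true := by
  simp only [test, Bool.and_eq_true, decide_eq_true_eq, List.all_eq_true, List.mem_range,
    Bool.not_eq_true', decide_eq_false_iff_not, and_assoc]
  exact ⟨fun ⟨h1, h2, h3, h4⟩ => ⟨⟨h1, h2, fun r hr => ⟨h _ _ (h4 r hr).1, h _ _ (h4 r hr).2.1⟩,
      fun r hr => (h4 r hr).2.2.1, h3, fun r hr => (h4 r hr).2.2.2.1,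
      fun r hr => (h4 r hr).2.2.2.2.1, fun r hr => (h4 r hr).2.2.2.2.2⟩,
      fun r hr => ⟨(h4 r hr).1, (h4 r hr).2.1⟩⟩,
    fun ⟨G, h4⟩ => ⟨G.big, G.tau, G.small, fun r hr => ⟨(h4 r hr).1, (h4 r hr).2, G.ge r hr,
      G.dvd r hr, G.ne r hr, G.eq r hr⟩⟩⟩

section pt
variable {α : Type} [Enc α] {w : α → Hint} {r : α → ℕ}

theorem pt_it (hw : PT w) (hr : PT r) : PT fun a => (w a).it (r a) := by
  unfold Hint.it; fun_prop
theorem ptb_X (hw : PT w) : PTB fun a => (w a).X := PT.toNat_bits (by fun_prop)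
theorem ptb_τ (hw : PT w) : PTB fun a => (w a).τ := PT.toNat_bits (by fun_prop)
theorem ptb_c (hw : PT w) : PTB fun a => (w a).c := PT.toNat_bits (by fun_prop)
theorem ptb_p (hw : PT w) (hr : PT r) : PTB fun a => (w a).p (r a) :=
  PT.toNat_bits (pt_it hw hr).fst
theorem ptb_g (hw : PT w) (hr : PT r) : PTB fun a => (w a).g (r a) :=
  PT.toNat_bits (pt_it hw hr).snd.fst

theorem pt_test {chk : ℤ × T → Bool} (hc : PT chk) {K : α → ℕ} {a : α × ℕ → ℕ} (hK : PT K)
    (ha : PTB a) (hw : PT w) : PT fun x => test chk (K x) (fun r => a (x, r)) (w x) := by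
  have w1 : PT fun y : α × ℕ => w y.1 := hw.comp (by fun_prop)
  have w2 : PT fun y : (α × ℕ) × ℕ => w y.1.1 := hw.comp (by fun_prop)
  have r1 : PT fun y : α × ℕ => y.2 := by fun_prop
  have hp := ptb_p w1 r1
  have hg := ptb_g w1 r1
  have hg2 : PTB fun y : (α × ℕ) × ℕ => (w y.1.1).g y.2 := ptb_g w2 (by fun_prop)
  have hi := pt_it w1 r1
  exact ((((PTB.const 2).lt (ptb_X hw)).and ((PTB.const 0).lt (ptb_τ hw))).and
    (((ptb_sumr hK (((PTB.const 2).mul (hp.sub (ptb_X w1))).add ((ptb_τ w1).mul ha))).pow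
      (PT.const 2)).lt (ptb_X hw))).and (PT.all hK.range
    ((((((hc.comp ((PT.int_of_bin hp).prodMk hi.snd.snd.fst)).and
      (hc.comp ((PT.int_of_bin (hp.add ((ptb_τ w1).mul ha))).prodMk hi.snd.snd.snd))).and
      ((ptb_X w1).le hp)).and (((ptb_τ w1).mod hg).eq (PTB.const 0))).and
      ((hp.mod hg).eq ((ptb_c w1).mod hg)).not).and (PT.all r1.range
      (((ptb_p w2 (by fun_prop)).mod hg2).eq ((ptb_c w2).mod hg2)))))

end pt

theorem exists_hint {chk : ℤ × T → Bool} {q : Polynomial ℕ}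
    (h1 : ∀ (p : ℕ) (w : T), chk (p, w) = true → p.Prime)
    (h2 : ∀ p b : ℕ, p.Prime → p < 2 ^ b → ∃ w : T, sz w ≤ q.eval b ∧ chk (p, w) = true)
    {K : ℕ → ℕ} {a : ℕ × ℕ → ℕ} (hK : PT K) (ha : PTB a) : ∃ p : Polynomial ℕ, ∀ m,
      ∃ w : Hint, 2 * sz w + 1 ≤ p.eval m ∧ test chk (K m) (fun r => a (m, r)) w = true := by
  obtain ⟨z₀, hz⟩ := exists_good
  obtain ⟨qa, hqa⟩ := ha.pb
  let z : ℕ → ℕ := fun m => z₀ + K m + qa.eval (m + K m + 1)
  let b : ℕ → ℕ := fun m => 20 * z m ^ 2 + 2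
  have pm : PB sz fun m : ℕ => m := PT.id.pb_nat
  have pz : PB sz z := ((PB.const _).add hK.pb_nat).add (((pm.add hK.pb_nat).add (PB.const _)).eval _)
  have pb : PB sz b := ((PB.const _).mul (pz.pow 2)).add (PB.const _)
  obtain ⟨p, hp⟩ : PB sz fun m => 2 * (12 * b m + 6 + K m * (8 * b m + 5 + 2 * q.eval (b m) + 1)) + 1 :=
    ((PB.const _).mul ((((PB.const _).mul pb).add (PB.const _)).add (hK.pb_nat.mul
      (((((PB.const _).mul pb).add (PB.const _)).add ((PB.const _).mul (pb.eval q))).add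
      (PB.const _))))).add (PB.const _)
  refine ⟨p, fun m => ?_⟩
  obtain ⟨X, τ, c, p', g, G, k1, k2, k3, k4⟩ := hz (K m) (z m) (fun r => a (m, r))
    (by simp only [z]; omega) (by simp only [z]; omega) fun r hr =>
      (lt_two_pow_sz _).trans_le (Nat.pow_le_pow_right (by omega) ((hqa _).trans
        ((peval_mono qa (show sz (m, r) ≤ m + K m + 1 by simp [sz_prod]; omega)).trans
          (Nat.le_add_left _ _))))
  have k5 : ∀ r, ∃ u : T × T, r < K m → sz u.1 ≤ q.eval (b m) ∧ sz u.2 ≤ q.eval (b m) ∧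
      chk (p' r, u.1) = true ∧ chk ((p' r + τ * a (m, r) : ℕ), u.2) = true := fun r => by
    by_cases hr : r < K m
    · obtain ⟨u, u1, u2⟩ := h2 _ (b m) (G.pr r hr).1 ((Nat.le_add_right _ _).trans_lt (k4 r hr).1)
      obtain ⟨v, v1, v2⟩ := h2 _ (b m) (G.pr r hr).2 (k4 r hr).1
      exact ⟨(u, v), fun _ => ⟨u1, v1, u2, v2⟩⟩
    · exact ⟨(.nil, .nil), fun h => absurd h hr⟩
  choose u hu using k5
  let w : Hint := (X, τ, c, (List.range (K m)).map fun r => (p' r, g r, u r))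
  have e0 : ∀ r < K m, w.it r = ((p' r : ℤ), (g r : ℤ), u r) := fun r hr => by
    simp [w, Hint.it, List.getD_eq_getElem?_getD, hr]
  have e1 : ∀ r < K m, w.p r = p' r := fun r hr => by simp [Hint.p, e0 r hr]
  have e2 : ∀ r < K m, w.g r = g r := fun r hr => by simp [Hint.g, e0 r hr]
  have e3 : w.X = X := rfl
  have e4 : w.τ = τ := rfl
  have e5 : w.c = c := rfl
  refine ⟨w, le_trans ?_ ((hp m).trans_eq (by simp)), (test_iff h1).2 ⟨⟨G.big, G.tau, ?_, ?_, ?_,
    ?_, ?_, ?_⟩, fun r hr => ?_⟩⟩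
  · have s1 := sz_int_le (z := X) (k := b m) k1
    have s2 := sz_int_le (z := τ) (k := b m) k2
    have s3 := sz_int_le (z := c) (k := b m) k3
    have s4 := sz_list_le (l := w.2.2.2) (B := 8 * b m + 5 + 2 * q.eval (b m)) fun y hy => by
      obtain ⟨r, hr, rfl⟩ := List.mem_map.1 hy
      rw [List.mem_range] at hr
      have t1 := sz_int_le (z := p' r) (k := b m) ((Nat.le_add_right _ _).trans_lt (k4 r hr).1)
      have t2 := sz_int_le (z := g r) (k := b m) (k4 r hr).2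
      have t3 := hu r hr
      simp only [sz_prod]
      omega
    rw [show w.2.2.2.length = K m by simp [w]] at s4
    simp only [sz_prod]
    change 2 * (sz (X : ℤ) + (sz (τ : ℤ) + (sz (c : ℤ) + sz w.2.2.2 + 1) + 1) + 1) + 1 ≤ _
    omega
  · intro r hr; rw [e1 r hr]; exact G.pr r hr
  · intro r hr; rw [e1 r hr]; exact G.ge r hr
  · rw [sum_congr rfl fun r hr => by rw [e1 r (mem_range.1 hr)]]; exact G.small
  · intro r hr; rw [e2 r hr]; exact G.dvd r hr
  · intro r hr; rw [e1 r hr, e2 r hr]; exact G.ne r hr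
  · intro s hs r hr; rw [e1 s hs, e2 r (hr.trans hs)]; exact G.eq s hs r hr
  · rw [e1 r hr, e0 r hr]; exact (hu r hr).2.2

theorem main {n : ℕ} (hn : 5 ≤ n) {L : DecisionProblem} (hL : L ∈ NP) : Red L (FlagLang n) := by
  obtain ⟨k, a, t, hk, ha, ht, h⟩ := univ_subset_sum hL
  obtain ⟨chk, q, hc, h1, h2⟩ := pratt
  obtain ⟨p, hp⟩ := exists_hint h1 h2 hk.succ ha
  let w : Str × Str → Hint := fun y => rd (PT.parse y.2)
  have hw : PT w := PT.rd (PT.parse'.comp (by fun_prop))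
  have hk0 : PT fun y : Str × Str => k y.1.length := hk.comp (by fun_prop)
  have ha1 : PTB fun y : (Str × Str) × ℕ => a (y.1.1.length, y.2) := ha.comp (by fun_prop)
  have ht1 : PTB fun y : Str × Str => t y.1 := ht.comp (by fun_prop)
  have w1 : PT fun y : (Str × Str) × ℕ => w y.1 := hw.comp (by fun_prop)
  have hp1 := ptb_p w1 (show PT fun y : (Str × Str) × ℕ => y.2 by fun_prop)
  have hs := ptb_sumr hk0.succ ha1
  have hC := ptb_sumr hk0.succ (hp1.sub (ptb_X w1))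
  have hM := ptb_prodr hk0.succ (hp1.mul (hp1.add ((ptb_τ w1).mul ha1)))
  have hA := PTB.ite (ht1.le hs) (((ptb_X hw).pow hk0).mul
    (((ptb_X hw).add (hC.add ((ptb_τ hw).mul ht1))).add (PTB.const 1))) (PTB.const 0)
  have hB := ((ptb_X hw).pow hk0).mul
    (((ptb_X hw).add (hC.add ((ptb_τ hw).mul (hs.sub ht1)))).add (PTB.const 1))
  refine ⟨p, _, _, (pt_test hc hk0.succ ha1 hw).isPolyTime_rel, (mem_pt_enc.comp (pt_int_list
    (fun j => ptb_dvec hM hA hB (posSet j)) (List.range (2 ^ n)))).isPolyTime_str2, fun m => ?_,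
    fun x s hR => ?_⟩
  · obtain ⟨v, v1, v2⟩ := hp m
    refine ⟨(enc v).bits, (T.length_bits _).trans_le v1, ?_⟩
    rintro x rfl
    simpa [w, PT.parse_bits'] using v2
  · have G := ((test_iff h1).1 hR).1
    rw [Bool.eq_iff_iff, h, flagLang_encode n fun S => (dvec _ _ _ S : ℤ), slice_div hn G.odd]
    split_ifs with hle
    · exact G.div_iff (Nat.add_sub_cancel' hle)
    · exact ⟨fun ⟨I, hI, e⟩ => absurd (e ▸ sum_le_sum_of_subset hI) hle,
        fun ⟨_, _, _, h0, _⟩ => absurd h0 (Nat.not_lt_zero _)⟩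

end Pool.Agent.Lib.MP_685082_co.DV
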